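import Pool.Agent.TH783.FC.Itp
import Pool.Agent.W889.FO.Pos
import Pool.Agent.TH783.IS.Main

set_option autoImplicit false

/-! From Borel classes of graphs to theories of graphs. -/

namespace Pool.Agent.TH783.FC

open FirstOrder FirstOrder.Language
open Pool.Agent.W889.VC (BP BinStr BIso VCof Dich bp_atom)
open Pool.Agent.W889.FO
open Pool.Agent.W889.FO.StE (LG gd siso_gd)

/-- the graph with a given code -/
@[reducible] def gc (y : BinStr) : LG.Structure ℕ where
  funMap := fun {_} f => isEmptyElim f
  RelMap := fun {_} Q => match Q with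
    | FirstOrder.Language.graphRel.adj => fun v => y (v 0) (v 1) = true

theorem gd_gc (y : BinStr) (u v : ℕ) : gd (gc y) u v ↔ y u v = true := Iff.rfl

open Classical in
/-- the code -/
noncomputable def cg (S : LG.Structure ℕ) : BinStr := fun u v => decide (gd S u v)

theorem cg_iff (S : LG.Structure ℕ) (u v : ℕ) : cg S u v = true ↔ gd S u v := by
  classical
  unfold cg
  exact decide_eq_true_iff

theorem siso_cg (S : LG.Structure ℕ) : SIso S (gc (cg S)) := siso_gd (Equiv.refl ℕ) fun u v => by
  show gd (gc (cg S)) u v ↔ gd S u v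
  rw [gd_gc]
  simp [cg]

theorem siso_gc {x y : BinStr} : SIso (gc x) (gc y) ↔ BIso x y := by
  constructor
  · rintro ⟨f⟩
    let σ : Equiv.Perm ℕ := @FirstOrder.Language.Equiv.toEquiv LG ℕ ℕ (gc x) (gc y) f
    refine ⟨σ, fun m n => ?_⟩
    rw [Bool.eq_iff_iff]
    exact iso_rel f FirstOrder.Language.graphRel.adj ![m, n]
  · rintro ⟨σ, hσ⟩
    refine siso_gd σ fun u v => ?_
    rw [gd_gc, gd_gc, hσ]

/-- Vaught's conjecture for theories of graphs from the conjecture for Borel classes -/
theorem vaught_of_borel {K : BinStr → Prop} (hK : VCof True BIso K) (T : LG.Theory)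
    (hT : ∀ S : LG.Structure ℕ, @Theory.Model LG ℕ S T → K (cg S)) : Vaught LG T := by
  classical
  have := StD.countable_LG
  have hsc : Countable LG.Sentence := countable_sentence
  let B : Set BinStr := {y | @Theory.Model LG ℕ (gc y) T}
  have hbr : ∀ (n : ℕ) (R : LG.Relations n) (v : Fin n → ℕ),
      BP (fun y : BinStr => @Structure.RelMap LG ℕ (gc y) n R v) := by
    intro n R v
    cases R with
    | adj => exact bp_atom (v 0) (v 1)
  have hB : MeasurableSet B := by
    have hT' : Countable T := Subtype.countable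
    have h1 : BP (fun y : BinStr => ∀ φ : T, @Sentence.Realize LG ℕ (gc y) φ.1) :=
      BP.all fun φ => bp_sentence hbr φ.1
    refine (congrArg MeasurableSet (Set.ext fun x => ?_)).mp h1
    constructor
    · intro h2
      exact ax_iff.2 fun φ hφ => h2 ⟨φ, hφ⟩
    · intro h2 φ
      exact ax_iff.1 h2 φ.1 φ.2
  have hstep : ∀ x y : BinStr, BIso x y → x ∈ B → y ∈ B := fun x y h hx =>
    (siso_gc.2 h).model hx
  rcases hK B hB (fun x y h => ⟨hstep x y h, hstep y x h.symm⟩) (fun x hx => by
    have h1 := hT (gc x) hx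
    have h2 : cg (gc x) = x := by
      funext u v
      rw [Bool.eq_iff_iff]
      unfold cg
      rw [decide_eq_true_iff]
      exact gd_gc x u v
    rwa [h2] at h1) with ⟨f, hf⟩ | ⟨g, h1, h2, h3⟩
  · left
    refine ⟨fun n => gc (f n), fun S hS => ?_⟩
    obtain ⟨n, hn⟩ := hf (cg S) ((siso_cg S).model hS)
    exact ⟨n, (siso_cg S).trans (siso_gc.2 hn).symm⟩
  · right
    refine ⟨fun c => gc (g c), fun c => h2 c, fun c d hcd => h3 c d (siso_gc.1 hcd),
      fun n R v => ?_⟩
    cases R with
    | adj =>
      have h4 : Continuous fun c => g c (v 0) (v 1) :=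
        (continuous_apply _).comp ((continuous_apply (v 0)).comp (h1 trivial))
      exact (isClopen_discrete {true}).preimage h4

end Pool.Agent.TH783.FC
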