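import Mathlib

set_option autoImplicit false

/-! Recovering a relation from its flip between layers that all contain infinitely many isolated
vertices. -/

namespace Pool.Agent.TH783.FC

variable {T : Type}

/-- twins -/
def Tw (F : T → T → Prop) (u v : T) : Prop := u ≠ v ∧ ∀ w, w ≠ u → w ≠ v → (F u w ↔ F v w)

/-- four twins -/
def Iz (F : T → T → Prop) (u : T) : Prop := ∃ p : Fin 4 → T, Function.Injective p ∧ ∀ i, Tw F u (p i)

/-- a vertex with four twins which looks the same from the vertices with four twins -/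
def Mt (F : T → T → Prop) (u z : T) : Prop :=
  Iz F z ∧ ∀ w, Iz F w → w ≠ u → w ≠ z → (F u w ↔ F z w)

/-- the flip -/
def Fl (F : T → T → Prop) (u v : T) : Prop :=
  u ≠ v ∧ ∃ z z', z ≠ z' ∧ Mt F u z ∧ Mt F v z' ∧ F z z'

/-- the relation -/
def Un (F : T → T → Prop) (u v : T) : Prop :=
  u ≠ v ∧ ∃ z z', z ≠ z' ∧ Mt F u z ∧ Mt F v z' ∧ ¬ (F u v ↔ F z z')

/-- the flipped relation -/
def flip (X fl : T → T → Prop) (u v : T) : Prop := ¬ (X u v ↔ fl u v)

/-- hypotheses -/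
structure Good (X fl : T → T → Prop) : Prop where
  irr : ∀ u, ¬ X u u
  sy : ∀ u v, X u v → X v u
  lay : ∃ (L : Type) (l : T → L) (f : L → L → Prop), (∀ a b, f a b → f b a) ∧
    (∀ u v, fl u v ↔ u ≠ v ∧ f (l u) (l v)) ∧
    ∀ u, ∀ s : Finset T, ∃ z, z ∉ s ∧ (∀ v, ¬ X z v) ∧ ∀ w, f (l z) (l w) ↔ f (l u) (l w)
  tw : ∀ u, (∃ v, X u v) → ¬ Iz X u

theorem Good.unflip {X fl : T → T → Prop} (h : Good X fl) :
    (∀ u v, Un (flip X fl) u v ↔ X u v) ∧ ∀ u v, Fl (flip X fl) u v ↔ fl u v := by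
  classical
  obtain ⟨L, l, f, hf, hfl, hz⟩ := h.lay
  have ffs : ∀ a b, f a b ↔ f b a := fun a b => ⟨hf a b, hf b a⟩
  -- an isolated vertex in the layer of a given one
  have hiso : ∀ u z, (∀ v, ¬ X z v) → (flip X fl z u ↔ fl z u) ∧ (flip X fl u z ↔ fl u z) := by
    intro u z hz
    have h2 : ¬ X u z := fun h' => hz u (h.sy _ _ h')
    have h3 := hz u
    unfold flip
    constructor <;> tauto
  have hneq : ∀ u v, u ≠ v → (fl u v ↔ f (l u) (l v)) := fun u v huv => by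
    rw [hfl]
    tauto
  -- isolated vertices have twins
  have four : ∀ u, ∃ p : Fin 4 → T, Function.Injective p ∧ ∀ i, p i ≠ u ∧ (∀ v, ¬ X (p i) v) ∧
      ∀ w, f (l (p i)) (l w) ↔ f (l u) (l w) := by
    intro u
    obtain ⟨z0, h0, h0'⟩ := hz u {u}
    obtain ⟨z1, h1, h1'⟩ := hz u {u, z0}
    obtain ⟨z2, h2, h2'⟩ := hz u {u, z0, z1}
    obtain ⟨z3, h3, h3'⟩ := hz u {u, z0, z1, z2}
    simp only [Finset.mem_insert, Finset.mem_singleton, not_or] at h0 h1 h2 h3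
    refine ⟨![z0, z1, z2, z3], ?_, ?_⟩
    · intro i j hij
      fin_cases i <;> fin_cases j <;> first | rfl | (exfalso; simp at hij; tauto)
    · intro i
      fin_cases i
      · exact ⟨h0, h0'⟩
      · exact ⟨h1.1, h1'⟩
      · exact ⟨h2.1, h2'⟩
      · exact ⟨h3.1, h3'⟩
  have iz : ∀ u, Iz (flip X fl) u ↔ ∀ v, ¬ X u v := by
    intro u
    constructor
    · rintro ⟨p, hp, hp'⟩ v hv
      refine h.tw u ⟨v, hv⟩ ⟨p, hp, fun i => ?_⟩
      obtain ⟨h1, h2⟩ := hp' i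
      refine ⟨h1, fun w hw1 hw2 => ?_⟩
      obtain ⟨z, hz1, hz2, hz3⟩ := hz w {u, p i}
      simp only [Finset.mem_insert, Finset.mem_singleton, not_or] at hz1
      have h3 := h2 z hz1.1 hz1.2
      rw [(hiso u z hz2).2, (hiso (p i) z hz2).2, hneq _ _ (Ne.symm hz1.1),
        hneq _ _ (Ne.symm hz1.2), ffs (l u), ffs (l (p i)), hz3, hz3, ffs (l w), ffs (l w)] at h3
      have h4 := h2 w hw1 hw2
      unfold flip at h4
      rw [hneq _ _ (Ne.symm hw1), hneq _ _ (Ne.symm hw2)] at h4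
      tauto
    · intro hu
      obtain ⟨p, hp, hp'⟩ := four u
      refine ⟨p, hp, fun i => ⟨(hp' i).1.symm, fun w hw1 hw2 => ?_⟩⟩
      rw [(hiso w u hu).1, (hiso w (p i) (hp' i).2.1).1, hneq _ _ (Ne.symm hw1),
        hneq _ _ (Ne.symm hw2), (hp' i).2.2 w]
  have mt : ∀ u z, Mt (flip X fl) u z ↔ (∀ v, ¬ X z v) ∧ ∀ w, f (l z) (l w) ↔ f (l u) (l w) := by
    intro u z
    unfold Mt
    rw [iz]
    refine and_congr_right fun hzz => ?_
    constructor
    · intro h1 w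
      obtain ⟨y, hy1, hy2, hy3⟩ := hz w {u, z}
      simp only [Finset.mem_insert, Finset.mem_singleton, not_or] at hy1
      have h2 := h1 y ((iz y).2 hy2) hy1.1 hy1.2
      rw [(hiso u y hy2).2, (hiso z y hy2).2, hneq _ _ (Ne.symm hy1.1), hneq _ _ (Ne.symm hy1.2),
        ffs (l u), ffs (l z), hy3, hy3, ffs (l w), ffs (l w)] at h2
      exact h2.symm
    · intro h1 w hw hwu hwz
      rw [iz] at hw
      rw [(hiso u w hw).2, (hiso z w hw).2, hneq _ _ (Ne.symm hwu), hneq _ _ (Ne.symm hwz)]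
      exact (h1 w).symm
  have key : ∀ u v, u ≠ v → ∀ z z', z ≠ z' → Mt (flip X fl) u z → Mt (flip X fl) v z' →
      (flip X fl z z' ↔ fl u v) := by
    intro u v huv z z' hzz h1 h2
    rw [mt] at h1 h2
    rw [(hiso z' z h1.1).1, hneq _ _ hzz, hneq _ _ huv, h1.2, ffs, h2.2, ffs]
  have ex : ∀ u v, ∃ z z', z ≠ z' ∧ Mt (flip X fl) u z ∧ Mt (flip X fl) v z' := by
    intro u v
    obtain ⟨z, hz1, hz2, hz3⟩ := hz u ∅
    obtain ⟨z', hz1', hz2', hz3'⟩ := hz v {z}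
    simp only [Finset.mem_singleton] at hz1'
    exact ⟨z, z', Ne.symm hz1', (mt _ _).2 ⟨hz2, hz3⟩, (mt _ _).2 ⟨hz2', hz3'⟩⟩
  constructor
  · intro u v
    constructor
    · rintro ⟨huv, z, z', h1, h2, h3, h4⟩
      rw [key u v huv z z' h1 h2 h3] at h4
      unfold flip at h4
      tauto
    · intro hX
      have huv : u ≠ v := fun e => h.irr u (by rw [← e] at hX; exact hX)
      obtain ⟨z, z', h1, h2, h3⟩ := ex u v
      refine ⟨huv, z, z', h1, h2, h3, ?_⟩
      rw [key u v huv z z' h1 h2 h3]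
      unfold flip
      tauto
  · intro u v
    constructor
    · rintro ⟨huv, z, z', h1, h2, h3, h4⟩
      exact (key u v huv z z' h1 h2 h3).1 h4
    · intro hfl'
      have huv : u ≠ v := ((hfl u v).1 hfl').1
      obtain ⟨z, z', h1, h2, h3⟩ := ex u v
      exact ⟨huv, z, z', h1, h2, h3, (key u v huv z z' h1 h2 h3).2 hfl'⟩

end Pool.Agent.TH783.FC
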