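import Pool.Agent.TH783.FC.Lay
import Pool.Agent.TH783.FC.Unflip

set_option autoImplicit false

/-! Subdivided graphs with cliques in the neighbourhoods of the centres. -/

namespace Pool.Agent.TH783.FC

open Pool.Agent.W889.SD

variable {T : Type} {r : ℕ} {X : T → T → Prop}

/-- centres -/
def Ce (r : ℕ) (X : T → T → Prop) (c : T) : Prop := Ly r X c 0 ∨ Ly r X c (r + 1)

/-- cliques around the centres -/
def Cl (r : ℕ) (X : T → T → Prop) (u v : T) : Prop :=
  X u v ∨ (u ≠ v ∧ ∃ c, Ce r X c ∧ X c u ∧ X c v)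

/-- simplicial vertices -/
def Si (Y : T → T → Prop) (c : T) : Prop := ∀ u v, Y c u → Y c v → u ≠ v → Y u v

/-- removal of the cliques -/
def Dl (Y : T → T → Prop) (u v : T) : Prop := Y u v ∧ ¬ ∃ c, Si Y c ∧ Y c u ∧ Y c v

/-- the encoded graph -/
def En (s : Bool) (r : ℕ) (X : T → T → Prop) (u v : T) : Prop :=
  X u v ∨ (s = true ∧ u ≠ v ∧ ∃ c, Ce r X c ∧ X c u ∧ X c v)

/-- the decoded graph -/
def De (s : Bool) (Y : T → T → Prop) (u v : T) : Prop :=
  Y u v ∧ (s = true → ¬ ∃ c, Si Y c ∧ Y c u ∧ Y c v)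

theorem en_true : En true r X = Cl r X := by
  funext u v
  simp [En, Cl]

theorem en_false : En false r X = X := by
  funext u v
  simp [En]

theorem de_true {Y : T → T → Prop} : De true Y = Dl Y := by
  funext u v
  simp [De, Dl]

theorem de_false {Y : T → T → Prop} : De false Y = Y := by
  funext u v
  simp [De]

theorem pig {p : Fin 4 → T} (hp : Function.Injective p) (a b : T) :
    ∃ i j, i ≠ j ∧ p i ≠ a ∧ p i ≠ b ∧ p j ≠ a ∧ p j ≠ b := by
  classical
  have h1 : ∀ a, ∃ i0, ∀ i, p i = a → i = i0 := by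
    intro a
    by_cases h : ∃ i, p i = a
    · obtain ⟨i0, h0⟩ := h
      exact ⟨i0, fun i hi => hp (hi.trans h0.symm)⟩
    · exact ⟨0, fun i hi => absurd ⟨i, hi⟩ h⟩
  obtain ⟨ia, ha⟩ := h1 a
  obtain ⟨ib, hb⟩ := h1 b
  have key : ∀ ia ib : Fin 4, ∃ i j : Fin 4, i ≠ j ∧ i ≠ ia ∧ i ≠ ib ∧ j ≠ ia ∧ j ≠ ib := by
    decide
  obtain ⟨i, j, h1, h2, h3, h4, h5⟩ := key ia ib
  exact ⟨i, j, h1, fun h => h2 (ha i h), fun h => h3 (hb i h), fun h => h4 (ha j h),
    fun h => h5 (hb j h)⟩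

variable (hX : Subd (2 * r) X)

include hX

theorem x_ly {u v : T} (h : X u v) : ∃ a b, Ly r X u a ∧ Ly r X v b ∧ (b = a + 1 ∨ a = b + 1) := by
  obtain ⟨a, ha⟩ := ly_ex hX ⟨v, h⟩
  obtain ⟨b, hb⟩ := ly_ex hX ⟨u, hX.symm _ _ h⟩
  exact ⟨a, b, ha, hb, ly_adj hX h ha hb⟩

/-- two vertices with a common centre -/
theorem cc_ly {u v c : T} (hc : Ce r X c) (h1 : X c u) (h2 : X c v) :
    ∃ a, Ly r X u a ∧ Ly r X v a ∧ ((a = 1 ∧ Ly r X c 0) ∨ (a = r ∧ Ly r X c (r + 1))) := by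
  obtain ⟨a, ha⟩ := ly_ex hX ⟨c, hX.symm _ _ h1⟩
  obtain ⟨b, hb⟩ := ly_ex hX ⟨c, hX.symm _ _ h2⟩
  have la := ly_le ha
  have lb := ly_le hb
  rcases hc with hc | hc
  · have e1 := ly_adj hX h1 hc ha
    have e2 := ly_adj hX h2 hc hb
    have e3 : b = a := by omega
    subst e3
    exact ⟨b, ha, hb, Or.inl ⟨by omega, hc⟩⟩
  · have e1 := ly_adj hX h1 hc ha
    have e2 := ly_adj hX h2 hc hb
    have e3 : b = a := by omega
    subst e3
    exact ⟨b, ha, hb, Or.inr ⟨by omega, hc⟩⟩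

theorem cl_ly {u v : T} (h : Cl r X u v) : ∃ a b, Ly r X u a ∧ Ly r X v b ∧
    ((b = a + 1 ∨ a = b + 1) ∧ X u v ∨ (a = b ∧ ∃ c, Ce r X c ∧ X c u ∧ X c v ∧
      ((a = 1 ∧ Ly r X c 0) ∨ (a = r ∧ Ly r X c (r + 1))))) := by
  rcases h with h | ⟨-, c, h1, h2, h3⟩
  · obtain ⟨a, b, h1, h2, h3⟩ := x_ly hX h
    exact ⟨a, b, h1, h2, Or.inl ⟨h3, h⟩⟩
  · obtain ⟨a, h4, h5, h6⟩ := cc_ly hX h1 h2 h3
    exact ⟨a, a, h4, h5, Or.inr ⟨rfl, c, h1, h2, h3, h6⟩⟩

theorem cl_ly' {u v : T} {a b : ℕ} (h : Cl r X u v) (ha : Ly r X u a) (hb : Ly r X v b) :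
    ((b = a + 1 ∨ a = b + 1) ∧ X u v ∨ (a = b ∧ ∃ c, Ce r X c ∧ X c u ∧ X c v ∧
      ((a = 1 ∧ Ly r X c 0) ∨ (a = r ∧ Ly r X c (r + 1))))) := by
  obtain ⟨a', b', h1, h2, h3⟩ := cl_ly hX h
  have e1 := ly_uq hX h1 ha
  have e2 := ly_uq hX h2 hb
  subst e1 e2
  exact h3

theorem cl_symm {u v : T} (h : Cl r X u v) : Cl r X v u := by
  rcases h with h | ⟨h, c, h1, h2, h3⟩
  · exact Or.inl (hX.symm _ _ h)
  · exact Or.inr ⟨h.symm, c, h1, h3, h2⟩

theorem cl_irr (u : T) : ¬ Cl r X u u := by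
  rintro (h | ⟨h, -⟩)
  · exact hX.irrefl _ h
  · exact h rfl

theorem cl_x {u v : T} {a b : ℕ} (h : Cl r X u v) (ha : Ly r X u a) (hb : Ly r X v b)
    (hab : a ≠ b) : X u v := by
  rcases cl_ly' hX h ha hb with ⟨-, h1⟩ | ⟨h1, -⟩
  · exact h1
  · exact absurd h1 hab

theorem cl_iso (u : T) : (∀ v, ¬ Cl r X u v) ↔ ∀ v, ¬ X u v := by
  constructor
  · exact fun h v hv => h v (Or.inl hv)
  · intro h v hv
    obtain ⟨a, b, h1, -, -⟩ := cl_ly hX hv
    obtain ⟨w, hw⟩ := ly_noniso h1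
    exact h w hw

variable (hr : 1 ≤ r)

include hr

theorem cl_ce {c u : T} (hc : Ce r X c) (h : Cl r X c u) : X c u := by
  rcases h with h | ⟨-, c', h1, h2, h3⟩
  · exact h
  · exfalso
    obtain ⟨a, h4, h5, h6⟩ := cc_ly hX h1 h2 h3
    rcases hc with hc | hc
    · have := ly_uq hX hc h4
      omega
    · have := ly_uq hX hc h4
      omega

theorem si_iff {c v : T} (h : X c v) : Si (Cl r X) c ↔ Ce r X c := by
  constructor
  · intro hs
    obtain ⟨a, ha⟩ := ly_ex hX ⟨v, h⟩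
    have hle := ly_le ha
    by_contra hn
    have h0 : a ≠ 0 := fun e => hn (Or.inl (e ▸ ha))
    have h1 : a ≠ r + 1 := fun e => hn (Or.inr (e ▸ ha))
    obtain ⟨b, rfl⟩ : ∃ b, a = b + 1 := ⟨a - 1, by omega⟩
    obtain ⟨x, hx1, hx2⟩ := low_ex hX ha
    obtain ⟨y, hy1, hy2⟩ := upp_ex hX ha (by omega)
    have hne : x ≠ y := fun e => by
      have := ly_uq hX hx1 (e ▸ hy1)
      omega
    have h3 := hs x y (Or.inl hx2) (Or.inl hy2) hne
    have h4 := cl_ly' hX h3 hx1 hy1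
    omega
  · intro hc x y hx hy hne
    exact Or.inr ⟨hne, c, hc, cl_ce hX hr hc hx, cl_ce hX hr hc hy⟩

theorem dl_cl {u v : T} : Dl (Cl r X) u v ↔ X u v := by
  constructor
  · rintro ⟨h1, h2⟩
    rcases h1 with h1 | ⟨h1, c, h3, h4, h5⟩
    · exact h1
    · exact absurd ⟨c, (si_iff hX hr h4).2 h3, Or.inl h4, Or.inl h5⟩ h2
  · intro h
    refine ⟨Or.inl h, ?_⟩
    rintro ⟨c, h1, h2, h3⟩
    have hc : Ce r X c := by
      obtain ⟨a, b, h4, -⟩ := cl_ly hX h2
      obtain ⟨w, hw⟩ := ly_noniso h4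
      exact (si_iff hX hr hw).1 h1
    obtain ⟨a, h4, h5, -⟩ := cc_ly hX hc (cl_ce hX hr hc h2) (cl_ce hX hr hc h3)
    have := ly_adj hX h h4 h5
    omega

theorem tw_x {u v : T} (h : X u v) : ¬ Iz X u := by
  rintro ⟨p, hp, hp'⟩
  -- a neighbour that is not big
  obtain ⟨a, ha1, ha2⟩ : ∃ a, X u a ∧ ¬ Big X a := by
    obtain ⟨t, ht⟩ := ly_ex hX ⟨v, h⟩
    have hle := ly_le ht
    rcases Nat.eq_zero_or_pos t with rfl | hpos
    · exact ⟨v, h, fun h' => hX.indep _ _ (ly_zero.1 ht) h' h⟩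
    · obtain ⟨b, rfl⟩ : ∃ b, t = b + 1 := ⟨t - 1, by omega⟩
      by_cases hb : b + 1 ≤ r
      · obtain ⟨y, hy1, hy2⟩ := upp_ex hX ht hb
        exact ⟨y, hy2, ly_nb hX hy1⟩
      · obtain ⟨x, hx1, hx2⟩ := low_ex hX ht
        obtain ⟨b', rfl⟩ : ∃ b', b = b' + 1 := ⟨b - 1, by omega⟩
        exact ⟨x, hx2, ly_nb hX hx1⟩
  obtain ⟨i, j, h1, h2, -, h3, -⟩ := pig hp a a
  have hua : a ≠ u := fun e => hX.irrefl u (by rw [e] at ha1; exact ha1)
  have h4 := ((hp' i).2 a hua h2.symm).1 ha1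
  have h5 := ((hp' j).2 a hua h3.symm).1 ha1
  exact ha2 ⟨u, p i, p j, (hp' i).1, (hp' j).1, fun e => h1 (hp e), hX.symm _ _ ha1,
    hX.symm _ _ h4, hX.symm _ _ h5⟩

theorem tw_cl {u v : T} (h : X u v) : ¬ Iz (Cl r X) u := by
  rintro ⟨p, hp, hp'⟩
  obtain ⟨t, ht⟩ := ly_ex hX ⟨v, h⟩
  have hle := ly_le ht
  have hne : ∀ x, X u x → x ≠ u := fun x hx e => hX.irrefl u (by rw [e] at hx; exact hx)
  have tr : ∀ i x, X u x → x ≠ p i → Cl r X (p i) x := fun i x h1 h2 =>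
    ((hp' i).2 x (hne x h1) h2).1 (Or.inl h1)
  rcases Nat.eq_zero_or_pos t with rfl | hpos
  · -- a root
    have hfin : ∀ i, ¬ X u (p i) := by
      intro i hi
      have l1 : Ly r X (p i) (0 + 1) := by
        obtain ⟨b, hb⟩ := ly_ex hX ⟨u, hX.symm _ _ hi⟩
        have := ly_adj hX hi ht hb
        have e : b = 0 + 1 := by omega
        exact e ▸ hb
      obtain ⟨y, hy1, hy2⟩ := upp_ex hX l1 hr
      have hyu : y ≠ u := fun e => by
        have := ly_uq hX hy1 (e ▸ ht)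
        omega
      have hyp : y ≠ p i := fun e => hX.irrefl _ (by rw [e] at hy2; exact hy2)
      have h1 := ((hp' i).2 y hyu hyp).2 (Or.inl hy2)
      have h2 := cl_ly' hX h1 ht hy1
      omega
    obtain ⟨x, x', hxx, hx, hx', hxv, hxv'⟩ : ∃ x x', x ≠ x' ∧ X u x ∧ X u x' ∧ x ≠ p 0 ∧
        x' ≠ p 0 := by
      obtain ⟨a, b, c, h1, h2, h3, h4, h5, h6⟩ := ly_zero.1 ht
      by_cases e1 : a = p 0
      · exact ⟨b, c, h3, h5, h6, fun e => h1 (e1.trans e.symm), fun e => h2 (e1.trans e.symm)⟩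
      · by_cases e2 : b = p 0
        · exact ⟨a, c, h2, h4, h6, e1, fun e => h3 (e2.trans e.symm)⟩
        · exact ⟨a, b, h1, h4, h5, e1, e2⟩
    have lay1 : ∀ x, X u x → Ly r X x (0 + 1) := by
      intro x hx
      obtain ⟨b, hb⟩ := ly_ex hX ⟨u, hX.symm _ _ hx⟩
      have := ly_adj hX hx ht hb
      have e : b = 0 + 1 := by omega
      exact e ▸ hb
    have lx := lay1 x hx
    have lx' := lay1 x' hx'
    have c1 := tr 0 x hx hxv
    have c2 := tr 0 x' hx' hxv'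
    obtain ⟨a, b, m1, m2, m3⟩ := cl_ly hX c1
    have e1 := ly_uq hX m2 lx
    subst e1
    rcases m3 with ⟨m3, m4⟩ | ⟨m3, c, m4, m5, m6, m7⟩
    · -- the twin is adjacent to `x`
      rcases m3 with m3 | m3
      · have e0 : a = 0 := by omega
        subst e0
        exact (hp' 0).1 (low_uq hX lx hr (hX.symm _ _ hx) ht (hX.symm _ _ m4) m1)
      · subst m3
        have m5 := cl_x hX c2 m1 lx' (by omega)
        by_cases hr2 : 2 ≤ r
        · exact hxx (low_uq hX m1 hr2 m4 lx m5 lx')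
        · have e : r = 1 := by omega
          subst e
          obtain ⟨y, y', k1, k2, k3, k4, k5⟩ := col_nb hX hr m1
          rcases k4 x m4 with e1 | e1 <;> rcases k4 x' m5 with e2 | e2
          · exact hxx (e1.trans e2.symm)
          · rw [← e1, ← e2] at k5
            exact (hp' 0).1 (k5 u (hX.symm _ _ hx) (hX.symm _ _ hx'))
          · rw [← e1, ← e2] at k5
            exact (hp' 0).1 (k5 u (hX.symm _ _ hx') (hX.symm _ _ hx))
          · exact hxx (e1.trans e2.symm)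
    · subst m3
      rcases m7 with ⟨m7, m8⟩ | ⟨m7, m8⟩
      · have e := low_uq hX lx hr (hX.symm _ _ hx) ht (hX.symm _ _ m6) m8
        rw [← e] at m5
        exact hfin 0 m5
      · have e : r = 1 := by omega
        subst e
        rcases cl_ly' hX c2 m1 lx' with ⟨k1, -⟩ | ⟨-, c', k1, k2, k3, ⟨-, k4⟩ | ⟨-, k4⟩⟩
        · omega
        · have e := low_uq hX lx' hr (hX.symm _ _ hx') ht (hX.symm _ _ k3) k4
          rw [← e] at k2
          exact hfin 0 k2
        · have e := upp_uq hX m1 hr (hX.symm _ _ m5) m8 (hX.symm _ _ k2) k4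
          rw [← e] at k3
          exact ly_nb hX m8 ⟨p 0, x, x', hxv.symm, hxv'.symm, hxx, m5, m6, k3⟩
  · obtain ⟨b, rfl⟩ : ∃ b, t = b + 1 := ⟨t - 1, by omega⟩
    by_cases hb : b + 1 ≤ r
    · -- an inner vertex of a half path
      obtain ⟨x, hx1, hx2⟩ := low_ex hX ht
      obtain ⟨y, hy1, hy2⟩ := upp_ex hX ht hb
      obtain ⟨i, j, h1, h2, h3, h4, h5⟩ := pig hp x y
      have key : ∀ i, p i ≠ x → p i ≠ y → X y (p i) := by
        intro i h2 h3
        have c1 := tr i x hx2 h2.symm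
        have c2 := tr i y hy2 h3.symm
        obtain ⟨a, b', m1, m2, m3⟩ := cl_ly hX c1
        have e1 := ly_uq hX m2 hx1
        subst e1
        have m4 := cl_ly' hX c2 m1 hy1
        have m5 : a = b' + 1 := by omega
        exact hX.symm _ _ (cl_x hX c2 m1 hy1 (by omega))
      exact ly_nb hX hy1 ⟨u, p i, p j, (hp' i).1, (hp' j).1, fun e => h1 (hp e),
        hX.symm _ _ hy2, key i h2 h3, key j h4 h5⟩
    · -- a column
      have e : b = r := by omega
      subst e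
      obtain ⟨x, x', k1, k2, k3, k4, k5⟩ := col_nb hX hr ht
      obtain ⟨i, -, -, h2, h3, -⟩ := pig hp x x'
      have c1 := tr i x k2 h2.symm
      have c2 := tr i x' k3 h3.symm
      have layr : ∀ x, X u x → Ly b X x b := by
        intro x hx
        obtain ⟨a, ha⟩ := ly_ex hX ⟨u, hX.symm _ _ hx⟩
        have := ly_adj hX hx ht ha
        have := ly_le ha
        have e : a = b := by omega
        exact e ▸ ha
      have lx := layr x k2
      have lx' := layr x' k3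
      obtain ⟨r', rfl⟩ : ∃ r', b = r' + 1 := ⟨b - 1, by omega⟩
      obtain ⟨a, b', m1, m2, m3⟩ := cl_ly hX c1
      have e1 := ly_uq hX m2 lx
      subst e1
      rcases m3 with ⟨m3, m4⟩ | ⟨m3, c, m4, m5, m6, m7⟩
      · have m5 := cl_x hX c2 m1 lx' (by omega)
        exact (hp' i).1 (k5 (p i) (hX.symm _ _ m4) (hX.symm _ _ m5)).symm
      · subst m3
        rcases cl_ly' hX c2 m1 lx' with ⟨n1, -⟩ | ⟨-, c', n1, n2, n3, n4⟩
        · omega
        · have colc : ∀ (c : T), X c (p i) → (∃ z, X u z ∧ X c z) → ¬ Ly (r' + 1) X c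
              (r' + 1 + 1) := by
            rintro c h1 ⟨z, hz, hz'⟩ h5
            have e := upp_uq hX (layr z hz) le_rfl (hX.symm _ _ hz) ht (hX.symm _ _ hz') h5
            rw [← e] at h1
            rcases k4 _ h1 with e | e
            · exact h2 e
            · exact h3 e
          have f1 : r' + 1 = 1 ∧ Ly (r' + 1) X c 0 := by
            rcases m7 with m7 | m7
            · exact m7
            · exact absurd m7.2 (colc c m5 ⟨x, k2, m6⟩)
          have f2 : r' + 1 = 1 ∧ Ly (r' + 1) X c' 0 := by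
            rcases n4 with m7 | m7
            · exact m7
            · exact absurd m7.2 (colc c' n2 ⟨x', k3, n3⟩)
          have e0 : r' = 0 := by omega
          subst e0
          have e := low_uq hX m1 hr (hX.symm _ _ m5) f1.2 (hX.symm _ _ n2) f2.2
          rw [← e] at n3
          have e2 := k5 c (hX.symm _ _ m6) (hX.symm _ _ n3)
          have := ly_uq hX f1.2 (e2 ▸ ht)
          omega

omit hX hr in
theorem en_symm (s : Bool) (hX : Subd (2 * r) X) {u v : T} (h : En s r X u v) :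
    En s r X v u := by
  rcases h with h | ⟨h0, h, c, h1, h2, h3⟩
  · exact Or.inl (hX.symm _ _ h)
  · exact Or.inr ⟨h0, h.symm, c, h1, h3, h2⟩

omit hX hr in
theorem en_irr (s : Bool) (hX : Subd (2 * r) X) (u : T) : ¬ En s r X u u := by
  rintro (h | ⟨-, h, -⟩)
  · exact hX.irrefl _ h
  · exact h rfl

omit hr in
theorem en_iso (s : Bool) (u : T) : (∀ v, ¬ En s r X u v) ↔ ∀ v, ¬ X u v := by
  cases s
  · rw [en_false]
  · rw [en_true]
    exact cl_iso hX u

theorem de_en (s : Bool) {u v : T} : De s (En s r X) u v ↔ X u v := by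
  cases s
  · rw [en_false, de_false]
  · rw [en_true, de_true]
    exact dl_cl hX hr

theorem tw_en (s : Bool) {u : T} (h : ∃ v, En s r X u v) : ¬ Iz (En s r X) u := by
  have h1 : ∃ v, X u v := by
    by_contra hn
    push Not at hn
    obtain ⟨v, hv⟩ := h
    exact (en_iso hX s u).2 hn v hv
  obtain ⟨v, hv⟩ := h1
  cases s
  · rw [en_false]
    exact tw_x hX hr hv
  · rw [en_true]
    exact tw_cl hX hr hv

end Pool.Agent.TH783.FC
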