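import Pool.Agent.TH783.FC.Clq

set_option autoImplicit false

/-! Embeddings into crossings. -/

namespace Pool.Agent.TH783.FC

open Pool.Agent.W889.SD

/-- vertices of the crossings -/
inductive Vx (r : ℕ) : Type
  | row (i : ℕ) : Vx r
  | col (j : ℕ) : Vx r
  | pt (i j : ℕ) (t : Fin r) : Vx r

namespace Vx

variable {r : ℕ}

/-- layers -/
def lay : Vx r → ℕ
  | row _ => 0
  | pt _ _ t => t + 1
  | col _ => r + 1

/-- edges -/
def edge (s : Bool) : Vx r → Vx r → Prop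
  | row i, pt i' _ t => i = i' ∧ (t : ℕ) = 0
  | pt i j t, pt i' j' t' => (i = i' ∧ j = j' ∧ (t' : ℕ) = t + 1) ∨
      (s = true ∧ ((i = i' ∧ (t : ℕ) = 0 ∧ (t' : ℕ) = 0) ∨
        (j = j' ∧ (t : ℕ) + 1 = r ∧ (t' : ℕ) + 1 = r)))
  | pt _ j t, col j' => j = j' ∧ (t : ℕ) + 1 = r
  | _, _ => False

end Vx

variable {r : ℕ} {X : ℕ → ℕ → Prop}

/-- `u` is at place `t` of the half path from the root `w` to the column `c` -/
def Hp (r : ℕ) (X : ℕ → ℕ → Prop) (w c : ℕ) (t : ℕ) (u : ℕ) : Prop :=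
  ∃ p w', ∃ i j : Fin (2 * r + 1), Pth (2 * r) X w p w' ∧ (i : ℕ) = t ∧ (j : ℕ) = r ∧ t < r ∧
    p i = u ∧ p j = c

/-- coordinates -/
def Gx (r : ℕ) (X : ℕ → ℕ → Prop) (lam : ℕ → ℕ) (u : ℕ) : Vx r → Prop
  | Vx.row i => i = u ∧ lam u = 0
  | Vx.col j => j = u ∧ lam u = r + 1
  | Vx.pt i j t => lam u = t + 1 ∧ (((∀ v, ¬ X u v) ∧ i = u ∧ j = u) ∨ Hp r X i j t u)

section

variable {w c u : ℕ} {t : ℕ}

theorem Hp.big (h : Hp r X w c t u) : Big X w := by
  obtain ⟨p, w', i, j, h1, -⟩ := h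
  exact h1.bw

theorem Hp.ly (h : Hp r X w c t u) : Ly r X u (t + 1) := by
  obtain ⟨p, w', i, j, h1, h2, h3, h4, rfl, -⟩ := h
  exact ly_of' h1 i (by omega) (by omega)

theorem Hp.lyc (h : Hp r X w c t u) : Ly r X c (r + 1) := by
  obtain ⟨p, w', i, j, h1, h2, h3, h4, -, rfl⟩ := h
  exact ly_of' h1 j (by omega) (by omega)

theorem Hp.st (h : Hp r X w c 0 u) : X w u := by
  obtain ⟨p, w', i, j, h1, h2, h3, h4, rfl, -⟩ := h
  exact h1.st i h2

theorem Hp.en (h : Hp r X w c t u) (ht : t + 1 = r) : X u c := by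
  obtain ⟨p, w', i, j, h1, h2, h3, h4, rfl, rfl⟩ := h
  exact h1.mid i j (by omega)

theorem not_iso_big {w : ℕ} (h : Big X w) (h' : ∀ v, ¬ X w v) : False := by
  obtain ⟨a, -, -, -, -, -, h1, -⟩ := h
  exact h' a h1

variable (hX : Subd (2 * r) X)

include hX

theorem Hp.inj {u' : ℕ} (h : Hp r X w c t u) (h' : Hp r X w c t u') : u = u' := by
  obtain ⟨p, w', i, j, h1, h2, h3, h4, rfl, h5⟩ := h
  obtain ⟨q, v', i', j', k1, k2, k3, k4, rfl, k5⟩ := h'
  rcases hX.uniq w p w' w q v' j j' h1 k1 (h5.trans k5.symm) with ⟨-, e1, -⟩ | ⟨e1, -, -⟩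
  · subst e1
    have e2 := hX.uq _ _ _ _ h1 k1
    have e3 : i = i' := Fin.ext (by omega)
    rw [e2, e3]
  · exact absurd e1 h1.ne

theorem Hp.nx {u' : ℕ} (h : Hp r X w c t u) (h' : Hp r X w c (t + 1) u') : X u u' := by
  obtain ⟨p, w', i, j, h1, h2, h3, h4, rfl, h5⟩ := h
  obtain ⟨q, v', i', j', k1, k2, k3, k4, rfl, k5⟩ := h'
  rcases hX.uniq w p w' w q v' j j' h1 k1 (h5.trans k5.symm) with ⟨-, e1, -⟩ | ⟨e1, -, -⟩
  · subst e1
    have e2 := hX.uq _ _ _ _ h1 k1
    rw [e2]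
    exact k1.mid _ _ (by omega)
  · exact absurd e1 h1.ne

/-- the coordinates of consecutive vertices -/
theorem Hp.nx' {u' w' c' : ℕ} (h : Hp r X w c t u) (h' : Hp r X w' c' (t + 1) u')
    (hu : X u' u) : w = w' ∧ c = c' := by
  obtain ⟨q, v', i', j', k1, k2, k3, k4, rfl, k5⟩ := h'
  have l1 : t < 2 * r + 1 := by omega
  have h6 : q ⟨t, l1⟩ = u := by
    refine low_uq hX (a := t + 1) (u := q i') ?_ (by omega) ?_ ?_ hu h.ly
    · exact ly_of' k1 i' (by omega) (by omega)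
    · exact hX.symm _ _ (k1.mid _ _ (by rw [k2]))
    · exact ly_of' k1 _ (by simp; omega) (by simp)
  obtain ⟨p, v, i, j, h1, h2, h3, h4, h5, h7⟩ := h
  rcases hX.uniq w p v w' q v' i ⟨t, l1⟩ h1 k1 (h5.trans h6.symm) with ⟨e1, e2, -⟩ | ⟨-, -, e⟩
  · subst e1 e2
    have e2 := hX.uq _ _ _ _ h1 k1
    refine ⟨rfl, ?_⟩
    have e3 : j = j' := Fin.ext (by omega)
    rw [← h7, ← k5, e2, e3]
  · simp at e
    omega

end

variable {lam : ℕ → ℕ} (hX : Subd (2 * r) X)
  (hl : ∀ u, (∃ v, X u v) → Ly r X u (lam u)) (hl' : ∀ u, lam u ≤ r + 1) (hr : 1 ≤ r)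

include hX hl in
theorem gl_hp {u i j : ℕ} {t : Fin r} (h : Gx r X lam u (Vx.pt i j t)) (hu : ∃ v, X u v) :
    Hp r X i j t u := by
  rcases h.2 with ⟨h1, -⟩ | h1
  · obtain ⟨v, hv⟩ := hu
    exact absurd hv (h1 v)
  · exact h1

include hX hl hl' in
theorem gl_ex (u : ℕ) : ∃ g, Gx r X lam u g := by
  by_cases h0 : lam u = 0
  · exact ⟨Vx.row u, rfl, h0⟩
  by_cases h1 : lam u = r + 1
  · exact ⟨Vx.col u, rfl, h1⟩
  have h2 := hl' u
  have h3 : lam u - 1 < r := by omega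
  by_cases h4 : ∃ v, X u v
  · have h5 := hl u h4
    have h6 : lam u = (lam u - 1) + 1 := by omega
    rw [h6] at h5
    obtain ⟨-, w, p, w', i, k1, k2, k3⟩ := ly_norm hX h5
    refine ⟨Vx.pt w (p ⟨r, by omega⟩) ⟨lam u - 1, h3⟩, h6, Or.inr ?_⟩
    exact ⟨p, w', i, ⟨r, by omega⟩, k1, k2, rfl, h3, k3, rfl⟩
  · push Not at h4
    exact ⟨Vx.pt u u ⟨lam u - 1, h3⟩, by simp; omega, Or.inl ⟨h4, rfl, rfl⟩⟩

include hX in
theorem gl_inj {u u' : ℕ} {g : Vx r} (h : Gx r X lam u g) (h' : Gx r X lam u' g) : u = u' := by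
  cases g with
  | row i => exact h.1.symm.trans h'.1
  | col j => exact h.1.symm.trans h'.1
  | pt i j t =>
    rcases h.2 with ⟨h1, h2, h3⟩ | h1 <;> rcases h'.2 with ⟨k1, k2, k3⟩ | k1
    · exact h2.symm.trans k2
    · exact (not_iso_big k1.big (h2 ▸ h1)).elim
    · exact (not_iso_big h1.big (k2 ▸ k1)).elim
    · exact h1.inj hX k1

include hX hl hr in
theorem gl_fwd {u v : ℕ} {g g' : Vx r} (s : Bool) (h : Gx r X lam u g) (h' : Gx r X lam v g')
    (hx : X u v) (hlv : lam v = lam u + 1) : Vx.edge s g g' := by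
  have hu := hl u ⟨v, hx⟩
  have hv := hl v ⟨u, hX.symm _ _ hx⟩
  have hle := ly_le hv
  cases g with
  | row i =>
    cases g' with
    | row i' => have := h.2; have := h'.2; omega
    | col j' => have := h.2; have := h'.2; omega
    | pt i' j' t' =>
      have h1 := h.2
      have h2 := h'.1
      have h3 := gl_hp hX hl h' ⟨u, hX.symm _ _ hx⟩
      have h4 : (t' : ℕ) = 0 := by omega
      rw [h4] at h3
      refine ⟨?_, h4⟩
      rw [h.1]
      rw [h1] at hu
      exact low_uq hX h3.ly (by omega) (hX.symm _ _ hx) hu (hX.symm _ _ h3.st)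
        (ly_zero.2 h3.big)
  | col j => have := h.2; omega
  | pt i j t =>
    have h1 := h.1
    have h3 := gl_hp hX hl h ⟨v, hx⟩
    cases g' with
    | row i' => have := h'.2; omega
    | col j' =>
      have h2 := h'.2
      have h4 : (t : ℕ) + 1 = r := by omega
      refine ⟨?_, h4⟩
      rw [h'.1]
      rw [h2] at hv
      refine upp_uq hX h3.ly (by omega) (h3.en h4) ?_ hx ?_
      · have := h3.lyc
        have e : (t : ℕ) + 2 = r + 1 := by omega
        rw [e]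
        exact this
      · have e : (t : ℕ) + 2 = r + 1 := by omega
        rw [e]
        exact hv
    | pt i' j' t' =>
      have h2 := h'.1
      have h4 := gl_hp hX hl h' ⟨u, hX.symm _ _ hx⟩
      have h5 : (t' : ℕ) = t + 1 := by omega
      rw [h5] at h4
      obtain ⟨e1, e2⟩ := h3.nx' hX h4 (hX.symm _ _ hx)
      exact Or.inl ⟨e1, e2, h5⟩

include hX hl hr in
theorem gl_fwd' {u v c : ℕ} {g g' : Vx r} (h : Gx r X lam u g) (h' : Gx r X lam v g')
    (hc : Ce r X c) (hu : X c u) (hv : X c v) : Vx.edge true g g' := by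
  obtain ⟨a, h1, h2, h3⟩ := cc_ly hX hc hu hv
  have hu' := hl u ⟨c, hX.symm _ _ hu⟩
  have hv' := hl v ⟨c, hX.symm _ _ hv⟩
  have e1 := ly_uq hX h1 hu'
  have e2 := ly_uq hX h2 hv'
  have ha : 1 ≤ a ∧ a ≤ r := by
    rcases h3 with ⟨h3, -⟩ | ⟨h3, -⟩ <;> omega
  have get : ∀ u g, Gx r X lam u g → a = lam u → X u c → ∃ i j t, g = Vx.pt i j t ∧
      Hp r X i j t u ∧ a = t + 1 := by
    intro u g h e hx
    cases g with
    | row i => have := h.2; omega
    | col j => have := h.2; omega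
    | pt i j t => exact ⟨i, j, t, rfl, gl_hp hX hl h ⟨c, hx⟩, e.trans h.1⟩
  obtain ⟨i, j, t, rfl, k1, k2⟩ := get u g h e1 (hX.symm _ _ hu)
  obtain ⟨i', j', t', rfl, m1, m2⟩ := get v g' h' e2 (hX.symm _ _ hv)
  right
  refine ⟨rfl, ?_⟩
  rcases h3 with ⟨h3, h4⟩ | ⟨h3, h4⟩
  · left
    have t0 : (t : ℕ) = 0 := by omega
    have t0' : (t' : ℕ) = 0 := by omega
    rw [t0] at k1
    rw [t0'] at m1
    refine ⟨?_, t0, t0'⟩
    have f1 := low_uq hX k1.ly (by omega) (hX.symm _ _ hu) h4 (hX.symm _ _ k1.st)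
      (ly_zero.2 k1.big)
    have f2 := low_uq hX m1.ly (by omega) (hX.symm _ _ hv) h4 (hX.symm _ _ m1.st)
      (ly_zero.2 m1.big)
    rw [← f1, ← f2]
  · right
    have t0 : (t : ℕ) + 1 = r := by omega
    have t0' : (t' : ℕ) + 1 = r := by omega
    refine ⟨?_, t0, t0'⟩
    have e : (t : ℕ) + 2 = r + 1 := by omega
    have e' : (t' : ℕ) + 2 = r + 1 := by omega
    have f1 := upp_uq hX k1.ly (by omega) (hX.symm _ _ hu) (by rw [e]; exact h4) (k1.en t0)
      (by rw [e]; exact k1.lyc)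
    have f2 := upp_uq hX m1.ly (by omega) (hX.symm _ _ hv) (by rw [e']; exact h4) (m1.en t0')
      (by rw [e']; exact m1.lyc)
    rw [← f1, ← f2]

include hX in
theorem gl_bwd {u v : ℕ} {g g' : Vx r} (s : Bool) (h : Gx r X lam u g) (h' : Gx r X lam v g')
    (hne : u ≠ v) (he : Vx.edge s g g') : En s r X u v := by
  cases g with
  | row i =>
    cases g' with
    | row i' => exact he.elim
    | col j' => exact he.elim
    | pt i' j' t' =>
      obtain ⟨h1, h2⟩ := he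
      have h3 := h'.2
      rw [h2] at h3
      rcases h3 with ⟨-, h3, -⟩ | h3
      · exact absurd (h.1.symm.trans (h1.trans h3)) hne
      · have := h3.st
        rw [← h1, h.1] at this
        exact Or.inl this
  | col j =>
    cases g' with
    | row i' => exact he.elim
    | col j' => exact he.elim
    | pt i' j' t' => exact he.elim
  | pt i j t =>
    have h1 := h.2
    cases g' with
    | row i' => exact he.elim
    | col j' =>
      obtain ⟨h2, h3⟩ := he
      rcases h1 with ⟨-, -, h4⟩ | h4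
      · exact absurd (h4.symm.trans (h2.trans h'.1)) hne
      · have := h4.en h3
        rw [h2, h'.1] at this
        exact Or.inl this
    | pt i' j' t' =>
      have h2 := h'.2
      rcases he with ⟨rfl, rfl, h5⟩ | ⟨hs, ⟨rfl, h4, h5⟩ | ⟨rfl, h4, h5⟩⟩
      · rcases h1 with ⟨k1, k2, k3⟩ | k1 <;> rcases h2 with ⟨m1, m2, m3⟩ | m1
        · exact absurd (k2.symm.trans m2) hne
        · exact (not_iso_big m1.big (k2 ▸ k1)).elim
        · exact (not_iso_big k1.big (m2 ▸ m1)).elim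
        · rw [h5] at m1
          exact Or.inl (k1.nx hX m1)
      · rcases h1 with ⟨k1, k2, k3⟩ | k1 <;> rcases h2 with ⟨m1, m2, m3⟩ | m1
        · exact absurd (k2.symm.trans m2) hne
        · exact (not_iso_big m1.big (k2 ▸ k1)).elim
        · exact (not_iso_big k1.big (m2 ▸ m1)).elim
        · rw [h4] at k1
          rw [h5] at m1
          exact Or.inr ⟨hs, hne, i, Or.inl (ly_zero.2 k1.big), k1.st, m1.st⟩
      · have nis : ∀ {i u : ℕ} {t : ℕ}, Hp r X i j t u → (∀ v, ¬ X j v) → False := by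
          intro i u t k h
          obtain ⟨v, hv⟩ := ly_noniso k.lyc
          exact h v hv
        rcases h1 with ⟨k1, k2, k3⟩ | k1 <;> rcases h2 with ⟨m1, m2, m3⟩ | m1
        · exact absurd (k3.symm.trans m3) hne
        · exact (nis m1 (k3 ▸ k1)).elim
        · exact (nis k1 (m3 ▸ m1)).elim
        · exact Or.inr ⟨hs, hne, j, Or.inr k1.lyc, hX.symm _ _ (k1.en h4),
            hX.symm _ _ (m1.en h5)⟩

include hX hl hl' hr in
/-- the embedding -/
theorem emb : ∃ g : ℕ → Vx r, Function.Injective g ∧ (∀ u, (g u).lay = lam u) ∧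
    ∀ (s : Bool) (u v : ℕ), u ≠ v →
      (En s r X u v ↔ (Vx.edge s (g u) (g v) ∨ Vx.edge s (g v) (g u))) := by
  choose g hg using gl_ex hX hl hl'
  refine ⟨g, fun u v huv => ?_, fun u => ?_, fun s u v huv => ⟨?_, ?_⟩⟩
  · exact gl_inj hX (hg u) (huv ▸ hg v)
  · have := hg u
    cases hgu : g u with
    | row i => rw [hgu] at this; exact this.2.symm
    | col j => rw [hgu] at this; exact this.2.symm
    | pt i j t => rw [hgu] at this; exact this.1.symm
  · rintro (h | ⟨hs, -, c, h1, h2, h3⟩)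
    · have hu := hl u ⟨v, h⟩
      have hv := hl v ⟨u, hX.symm _ _ h⟩
      rcases ly_adj hX h hu hv with e | e
      · exact Or.inl (gl_fwd hX hl hr s (hg u) (hg v) h e)
      · exact Or.inr (gl_fwd hX hl hr s (hg v) (hg u) (hX.symm _ _ h) e)
    · subst hs
      exact Or.inl (gl_fwd' hX hl hr (hg u) (hg v) h1 h2 h3)
  · rintro (h | h)
    · exact gl_bwd hX s (hg u) (hg v) huv h
    · exact en_symm s hX (gl_bwd hX s (hg v) (hg u) huv.symm h)

end Pool.Agent.TH783.FC
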