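import Pool.Agent.TH783.FC.Mod
import Pool.Agent.W889.FO.StD

set_option autoImplicit false

/-! Definability. -/

namespace Pool.Agent.TH783.FC

open FirstOrder FirstOrder.Language
open Pool.Agent.W889.SD (Big Pth Subd Adj')
open Pool.Agent.W889.FO
open Pool.Agent.W889.FO.StA (FD.all1 FD.ex1)

variable {L : FirstOrder.Language.{0, 0}} {V : L.Structure ℕ → Prop}
  {R Q : L.Structure ℕ → ℕ → ℕ → Prop}

/-- definable unary predicates -/
def FD1 (V : L.Structure ℕ → Prop) (P : L.Structure ℕ → ℕ → Prop) : Prop :=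
  ∀ (α : Type) (i : α), FD V (fun S (v : α → ℕ) => P S (v i))

/-- definable binary predicates -/
def FD2 (V : L.Structure ℕ → Prop) (R : L.Structure ℕ → ℕ → ℕ → Prop) : Prop :=
  ∀ (α : Type) (i j : α), FD V (fun S (v : α → ℕ) => R S (v i) (v j))

theorem FD2.flip (h : FD2 V R) (h' : FD2 V Q) : FD2 V (fun S => flip (R S) (Q S)) :=
  fun _ _ _ => ((h _ _ _).iff (h' _ _ _)).not

theorem FD2.tw (h : FD2 V R) : FD2 V (fun S => Tw (R S)) := fun _ i j =>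
  (FD.eq i j).not.and <|
    FD.all1 (P := fun S v w => w ≠ v i → w ≠ v j → (R S (v i) w ↔ R S (v j) w)) <|
    (FD.eq _ _).not.imp ((FD.eq _ _).not.imp ((h _ _ _).iff (h _ _ _)))

theorem FD2.iz (h : FD2 V R) : FD1 V (fun S => Iz (R S)) := fun _ i =>
  FD.ex (P := fun S v (p : Fin 4 → ℕ) => Function.Injective p ∧ ∀ m, Tw (R S) (v i) (p m)) <|
    (FD.inj _).and (FD.fin fun _ => h.tw _ _ _)

theorem FD2.mt (h : FD2 V R) : FD2 V (fun S => Mt (R S)) := fun _ i j =>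
  (h.iz _ _).and <|
    FD.all1 (P := fun S v w => Iz (R S) w → w ≠ v i → w ≠ v j →
      (R S (v i) w ↔ R S (v j) w)) <|
    (h.iz _ _).imp <| (FD.eq _ _).not.imp ((FD.eq _ _).not.imp ((h _ _ _).iff (h _ _ _)))

theorem FD2.fl (h : FD2 V R) : FD2 V (fun S => Fl (R S)) := by
  intro α i j
  have h1 : FD V (fun S (v : α → ℕ) => v i ≠ v j ∧ ∃ b : Fin 2 → ℕ, b 0 ≠ b 1 ∧
      Mt (R S) (v i) (b 0) ∧ Mt (R S) (v j) (b 1) ∧ R S (b 0) (b 1)) :=
    (FD.eq i j).not.and <|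
      FD.ex (P := fun S v (b : Fin 2 → ℕ) => b 0 ≠ b 1 ∧
      Mt (R S) (v i) (b 0) ∧ Mt (R S) (v j) (b 1) ∧ R S (b 0) (b 1)) <|
      (FD.eq _ _).not.and <| (h.mt _ _ _).and <| (h.mt _ _ _).and (h _ _ _)
  refine h1.congr fun S _ v => ?_
  constructor
  · rintro ⟨k1, b, k2⟩
    exact ⟨k1, b 0, b 1, k2⟩
  · rintro ⟨k1, z, z', k2⟩
    exact ⟨k1, ![z, z'], k2⟩

theorem FD2.un (h : FD2 V R) : FD2 V (fun S => Un (R S)) := by
  intro α i j
  have h1 : FD V (fun S (v : α → ℕ) => v i ≠ v j ∧ ∃ b : Fin 2 → ℕ, b 0 ≠ b 1 ∧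
      Mt (R S) (v i) (b 0) ∧ Mt (R S) (v j) (b 1) ∧
      ¬ (R S (v i) (v j) ↔ R S (b 0) (b 1))) :=
    (FD.eq i j).not.and <|
      FD.ex (P := fun S v (b : Fin 2 → ℕ) => b 0 ≠ b 1 ∧
      Mt (R S) (v i) (b 0) ∧ Mt (R S) (v j) (b 1) ∧
      ¬ (R S (v i) (v j) ↔ R S (b 0) (b 1))) <|
      (FD.eq _ _).not.and <| (h.mt _ _ _).and <| (h.mt _ _ _).and
        ((h _ _ _).iff (h _ _ _)).not
  refine h1.congr fun S _ v => ?_
  constructor
  · rintro ⟨k1, b, k2⟩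
    exact ⟨k1, b 0, b 1, k2⟩
  · rintro ⟨k1, z, z', k2⟩
    exact ⟨k1, ![z, z'], k2⟩

theorem FD2.si (h : FD2 V R) : FD1 V (fun S => Si (R S)) := by
  intro α i
  have h1 : FD V (fun S (v : α → ℕ) => ∀ b : Fin 2 → ℕ, R S (v i) (b 0) → R S (v i) (b 1) →
      b 0 ≠ b 1 → R S (b 0) (b 1)) :=
    FD.all (P := fun S v (b : Fin 2 → ℕ) => R S (v i) (b 0) → R S (v i) (b 1) →
      b 0 ≠ b 1 → R S (b 0) (b 1)) <|
    (h _ _ _).imp <| (h _ _ _).imp <| (FD.eq _ _).not.imp (h _ _ _)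
  refine h1.congr fun S _ v => ?_
  constructor
  · exact fun k x y => k ![x, y]
  · exact fun k b => k (b 0) (b 1)

theorem FD2.de (s : Bool) (h : FD2 V R) : FD2 V (fun S => De s (R S)) := fun _ i j =>
  (h _ _ _).and <| (FD.const _).imp <| FD.not <|
    FD.ex1 (P := fun S v c => Si (R S) c ∧ R S c (v i) ∧ R S c (v j)) <|
    (h.si _ _).and <| (h _ _ _).and (h _ _ _)

theorem FD2.big (h : FD2 V R) : FD1 V (fun S => Big (R S)) := by
  intro α i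
  refine (FD.ex (β := Fin 3) (P := fun S v (p : Fin 3 → ℕ) => Function.Injective p ∧
    ∀ j, R S (v i) (p j)) ((FD.inj _).and (FD.fin fun j => h _ _ _))).congr fun S _ v => ?_
  constructor
  · rintro ⟨p, h1, h2⟩
    exact ⟨p 0, p 1, p 2, fun h => absurd (h1 h) (by decide), fun h => absurd (h1 h) (by decide),
      fun h => absurd (h1 h) (by decide), h2 0, h2 1, h2 2⟩
  · rintro ⟨a, b, c, h1, h2, h3, h4, h5, h6⟩
    refine ⟨![a, b, c], ?_, ?_⟩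
    · intro m n hmn
      fin_cases m <;> fin_cases n <;> simp_all
    · intro m
      fin_cases m
      · exact h4
      · exact h5
      · exact h6

theorem FD2.pth (h : FD2 V R) (k : ℕ) {α : Type} (i : α) (p : Fin (k + 1) → α) (j : α) :
    FD V (fun S v => Pth k (R S) (v i) (fun m => v (p m)) (v j)) := by
  have h : FD V (fun S v => Big (R S) (v i) ∧ Big (R S) (v j) ∧ v i ≠ v j ∧
      Function.Injective (fun m => v (p m)) ∧ (∀ m, ¬ Big (R S) (v (p m))) ∧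
      (∀ m : Fin (k + 1), (m : ℕ) = 0 → R S (v i) (v (p m))) ∧
      (∀ m n : Fin (k + 1), (n : ℕ) = m + 1 → R S (v (p m)) (v (p n))) ∧
      ∀ m : Fin (k + 1), (m : ℕ) = k → R S (v (p m)) (v j)) :=
    (h.big _ _).and <| (h.big _ _).and <| (FD.eq _ _).not.and <| (FD.inj _).and <|
    (FD.fin fun m => (h.big _ _).not).and <|
    (FD.fin fun m => (FD.const _).imp (h _ _ _)).and <|
    (FD.fin fun m => FD.fin fun n => (FD.const _).imp (h _ _ _)).and <|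
    FD.fin fun m => (FD.const _).imp (h _ _ _)
  refine h.congr fun S _ v => ?_
  exact ⟨fun ⟨h1, h2, h3, h4, h5, h6, h7, h8⟩ => ⟨h1, h2, h3, h4, h5, h6, h7, h8⟩,
    fun ⟨h1, h2, h3, h4, h5, h6, h7, h8⟩ => ⟨h1, h2, h3, h4, h5, h6, h7, h8⟩⟩

theorem FD2.adj' (h : FD2 V R) (k : ℕ) : FD2 V (fun S => Adj' k (R S)) := fun _ i j =>
  FD.ex (P := fun S v (p : Fin (k + 1) → ℕ) => Pth k (R S) (v i) p (v j)) <|
    h.pth k (Sum.inl i) (fun m => Sum.inr m) (Sum.inl j)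

theorem FD2.ly (h : FD2 V R) (r a : ℕ) : FD1 V (fun S u => Ly r (R S) u a) := by
  intro α i
  have h1 : FD V (fun S (v : α → ℕ) => (Big (R S) (v i) ∧ a = 0) ∨
      ∃ b : Fin (2 * r + 1) ⊕ Fin 2 → ℕ, ∃ m : Fin (2 * r + 1),
        Pth (2 * r) (R S) (b (Sum.inr 0)) (fun m => b (Sum.inl m)) (b (Sum.inr 1)) ∧
          b (Sum.inl m) = v i ∧ a = min ((m : ℕ) + 1) (2 * r + 1 - m)) :=
    ((h.big _ _).and (FD.const _)).or <|
    FD.ex (P := fun S v (b : Fin (2 * r + 1) ⊕ Fin 2 → ℕ) => ∃ m : Fin (2 * r + 1),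
        Pth (2 * r) (R S) (b (Sum.inr 0)) (fun m => b (Sum.inl m)) (b (Sum.inr 1)) ∧
          b (Sum.inl m) = v i ∧ a = min ((m : ℕ) + 1) (2 * r + 1 - m)) <|
    FD.fin' fun m => (h.pth _ _ _ _).and <| (FD.eq _ _).and (FD.const _)
  refine h1.congr fun S _ v => ?_
  unfold Ly
  refine or_congr Iff.rfl ?_
  constructor
  · rintro ⟨b, m, k1, k2⟩
    exact ⟨_, _, _, m, k1, k2⟩
  · rintro ⟨w, p, w', m, k1, k2⟩
    exact ⟨Sum.elim p ![w, w'], m, k1, k2⟩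

theorem FD2.ce (h : FD2 V R) (r : ℕ) : FD1 V (fun S => Ce r (R S)) := fun _ _ =>
  (h.ly r 0 _ _).or (h.ly r (r + 1) _ _)

theorem FD2.en (s : Bool) (h : FD2 V R) (r : ℕ) : FD2 V (fun S => En s r (R S)) := fun _ i j =>
  (h _ _ _).or <| (FD.const _).and <| (FD.eq _ _).not.and <|
    FD.ex1 (P := fun S v c => Ce r (R S) c ∧ R S c (v i) ∧ R S c (v j)) <|
    (h.ce r _ _).and <| (h _ _ _).and (h _ _ _)

theorem FD2.iso (h : FD2 V R) : FD1 V (fun S u => ∀ v, ¬ R S u v) := fun _ i =>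
  FD.all1 (P := fun S v w => ¬ R S (v i) w) (h _ _ _).not

theorem FD2.tt (h : FD2 V R) (h' : FD2 V Q) (r : ℕ) (f : ℕ → ℕ → Prop) (a : ℕ) :
    FD1 V (fun S u => TT r f (R S) (Q S) u a) := fun _ i =>
  FD.fin fun b : Fin (r + 2) =>
    FD.all1 (P := fun S v w => Ly r (R S) w b → (Q S (v i) w ↔ f a b)) <|
    (h.ly r b _ _).imp ((h' _ _ _).iff (FD.const _))

theorem FD2.la (h : FD2 V R) (h' : FD2 V Q) (r : ℕ) (f : ℕ → ℕ → Prop) (a : ℕ) :
    FD1 V (fun S u => La r f (R S) (Q S) u a) := fun _ _ =>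
  (h.ly r a _ _).or ((h.iso _ _).and (h.tt h' r f a _ _))

/-- variables for a path and its ends -/
abbrev Vr (k : ℕ) : Type := Fin (k + 1) ⊕ Fin 2

/-- subdivided graphs are axiomatisable -/
theorem ax_subd (h : FD2 (fun _ => True) R) (k : ℕ) : Ax (fun S : L.Structure ℕ =>
    Subd k (R S)) := by
  have h1 : Ax (fun S : L.Structure ℕ => ∀ v : Fin 1 → ℕ, ¬ R S (v 0) (v 0)) :=
    Ax.ofn 1 (h _ _ _).not
  have h2 : Ax (fun S : L.Structure ℕ => ∀ v : Fin 2 → ℕ, R S (v 0) (v 1) →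
      R S (v 1) (v 0)) := Ax.ofn 2 ((h _ _ _).imp (h _ _ _))
  have h3 : Ax (fun S : L.Structure ℕ => ∀ v : Fin 2 → ℕ, Big (R S) (v 0) →
      Big (R S) (v 1) → ¬ R S (v 0) (v 1)) :=
    Ax.ofn 2 ((h.big _ _).imp ((h.big _ _).imp (h _ _ _).not))
  have h4 : Ax (fun S : L.Structure ℕ => ∀ v : Fin 1 → ℕ, ¬ Big (R S) (v 0) →
      (∀ x, ¬ R S (v 0) x) ∨ ∃ b : Vr k → ℕ, ∃ i,
        Pth k (R S) (b (Sum.inr 0)) (fun m => b (Sum.inl m)) (b (Sum.inr 1)) ∧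
          b (Sum.inl i) = v 0) := Ax.ofn 1 <|
    (h.big _ _).not.imp <| (FD.all1 (P := fun S v x => ¬ R S (v 0) x) (h _ _ _).not).or <|
    FD.ex (P := fun S v (b : Vr k → ℕ) => ∃ i,
        Pth k (R S) (b (Sum.inr 0)) (fun m => b (Sum.inl m)) (b (Sum.inr 1)) ∧
          b (Sum.inl i) = v 0) <| FD.fin' fun i => (h.pth _ _ _ _).and (FD.eq _ _)
  have h5 : Ax (fun S : L.Structure ℕ => ∀ v : Fin (k + 1) ⊕ Vr k → ℕ,
      Pth k (R S) (v (Sum.inr (Sum.inr 0))) (fun m => v (Sum.inl m))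
        (v (Sum.inr (Sum.inr 1))) →
      Pth k (R S) (v (Sum.inr (Sum.inr 0))) (fun m => v (Sum.inr (Sum.inl m)))
        (v (Sum.inr (Sum.inr 1))) → ∀ m, v (Sum.inl m) = v (Sum.inr (Sum.inl m))) :=
    Ax.off ((h.pth _ _ _ _).imp ((h.pth _ _ _ _).imp (FD.fin fun m => FD.eq _ _)))
  have h6 : Ax (fun S : L.Structure ℕ => ∀ i j : Fin (k + 1), ∀ v : Vr k ⊕ Vr k → ℕ,
      Pth k (R S) (v (Sum.inl (Sum.inr 0))) (fun m => v (Sum.inl (Sum.inl m)))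
        (v (Sum.inl (Sum.inr 1))) →
      Pth k (R S) (v (Sum.inr (Sum.inr 0))) (fun m => v (Sum.inr (Sum.inl m)))
        (v (Sum.inr (Sum.inr 1))) →
      v (Sum.inl (Sum.inl i)) = v (Sum.inr (Sum.inl j)) →
      (v (Sum.inr (Sum.inr 0)) = v (Sum.inl (Sum.inr 0)) ∧
        v (Sum.inr (Sum.inr 1)) = v (Sum.inl (Sum.inr 1)) ∧ j = i) ∨
      (v (Sum.inr (Sum.inr 0)) = v (Sum.inl (Sum.inr 1)) ∧
        v (Sum.inr (Sum.inr 1)) = v (Sum.inl (Sum.inr 0)) ∧ (i : ℕ) + j = k)) :=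
    Ax.all fun i => Ax.all fun j => Ax.off <| (h.pth _ _ _ _).imp <| (h.pth _ _ _ _).imp <|
      (FD.eq _ _).imp <| ((FD.eq _ _).and ((FD.eq _ _).and (FD.const _))).or
        ((FD.eq _ _).and ((FD.eq _ _).and (FD.const _)))
  have h7 : Ax (fun S : L.Structure ℕ => ∀ i : Fin (k + 1), ∀ v : Vr k ⊕ Unit → ℕ,
      Pth k (R S) (v (Sum.inl (Sum.inr 0))) (fun m => v (Sum.inl (Sum.inl m)))
        (v (Sum.inl (Sum.inr 1))) → R S (v (Sum.inl (Sum.inl i))) (v (Sum.inr ())) →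
      (v (Sum.inr ()) = v (Sum.inl (Sum.inr 0)) ∧ (i : ℕ) = 0) ∨
      (v (Sum.inr ()) = v (Sum.inl (Sum.inr 1)) ∧ (i : ℕ) = k) ∨
      ∃ j : Fin (k + 1), v (Sum.inr ()) = v (Sum.inl (Sum.inl j)) ∧
        ((j : ℕ) = i + 1 ∨ (i : ℕ) = j + 1)) :=
    Ax.all fun i => Ax.off <| (h.pth _ _ _ _).imp <| (h _ _ _).imp <|
      ((FD.eq _ _).and (FD.const _)).or <| ((FD.eq _ _).and (FD.const _)).or <|
      FD.fin' fun j => (FD.eq _ _).and (FD.const _)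
  refine (h1.and (h2.and (h3.and (h4.and (h5.and (h6.and h7)))))).congr fun S => ?_
  constructor
  · rintro ⟨k1, k2, k3, k4, k5, k6, k7⟩
    refine ⟨fun u => k1 fun _ => u, fun u v => k2 ![u, v], fun u v => k3 ![u, v], ?_, ?_, ?_,
      ?_⟩
    · intro u hu
      rcases k4 (fun _ => u) hu with h | ⟨b, i, h, h'⟩
      · exact Or.inl h
      · exact Or.inr ⟨_, _, _, i, h, h'⟩
    · intro w p w' q h h'
      exact funext (k5 (Sum.elim p (Sum.elim q ![w, w'])) h h')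
    · intro w p w' v q v' i j h h' hij
      exact k6 i j (Sum.elim (Sum.elim p ![w, w']) (Sum.elim q ![v, v'])) h h' hij
    · intro w p w' i u h h'
      exact k7 i (Sum.elim (Sum.elim p ![w, w']) fun _ => u) h h'
  · rintro ⟨k1, k2, k3, k4, k5, k6, k7⟩
    refine ⟨fun v => k1 _, fun v => k2 _ _, fun v => k3 _ _, ?_, ?_, ?_, ?_⟩
    · intro v hv
      rcases k4 _ hv with h | ⟨w, p, w', i, h, h'⟩
      · exact Or.inl h
      · exact Or.inr ⟨Sum.elim p ![w, w'], i, h, h'⟩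
    · intro v h h' m
      exact congrFun (k5 _ _ _ _ h h') m
    · intro i j v h h' hij
      exact k6 _ _ _ _ _ _ i j h h' hij
    · intro i v h h'
      exact k7 _ _ _ i _ h h'

theorem ax_w1 (h : FD2 (fun _ => True) R) (h' : FD2 (fun _ => True) Q) (r : ℕ)
    (f : ℕ → ℕ → Prop) : Ax (fun S : L.Structure ℕ => W1 r f (R S) (Q S)) := by
  have h1 := ax_subd h (2 * r)
  have h2 : Ax (fun S : L.Structure ℕ => ∀ m : ℕ, ∃ X : Fin m → ℕ,
      Function.Injective X ∧ ∀ i, Big (R S) (X i)) := Ax.all fun m => Ax.of <|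
    FD.ex (P := fun S _ X => Function.Injective X ∧ ∀ i, Big (R S) (X i)) <|
    (FD.inj _).and (FD.fin fun _ => h.big _ _)
  have h3 : Ax (fun S : L.Structure ℕ => ∀ v : Fin 1 → ℕ, ∃ a : Fin (r + 2),
      La r f (R S) (Q S) (v 0) a) := Ax.ofn 1 <| FD.fin' fun a => h.la h' r f a _ _
  have h4 : Ax (fun S : L.Structure ℕ => ∀ a b : Fin (r + 2), ∀ v : Fin 2 → ℕ,
      La r f (R S) (Q S) (v 0) a → La r f (R S) (Q S) (v 1) b →
      (Q S (v 0) (v 1) ↔ v 0 ≠ v 1 ∧ f a b)) := Ax.all fun a => Ax.all fun b => Ax.ofn 2 <|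
    (h.la h' r f a _ _).imp <| (h.la h' r f b _ _).imp <|
    (h' _ _ _).iff ((FD.eq _ _).not.and (FD.const _))
  have h5 : Ax (fun S : L.Structure ℕ => ∀ a : Fin (r + 2), ∀ m : ℕ, ∃ X : Fin m → ℕ,
      Function.Injective X ∧ ∀ i, (∀ v, ¬ R S (X i) v) ∧ TT r f (R S) (Q S) (X i) a) :=
    Ax.all fun a => Ax.all fun m => Ax.of <|
    FD.ex (P := fun S _ X => Function.Injective X ∧ ∀ i, (∀ v, ¬ R S (X i) v) ∧
      TT r f (R S) (Q S) (X i) a) <|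
    (FD.inj _).and (FD.fin fun _ => (h.iso _ _).and (h.tt h' r f a _ _))
  refine (h1.and (h2.and (h3.and (h4.and h5)))).congr fun S => ?_
  constructor
  · rintro ⟨k1, k2, k3, k4, k5⟩
    exact ⟨k1, k2, fun u => k3 fun _ => u, fun a b u v => k4 a b ![u, v], k5⟩
  · rintro ⟨k1, k2, k3, k4, k5⟩
    exact ⟨k1, k2, fun v => k3 _, fun a b v => k4 a b _ _, k5⟩

end Pool.Agent.TH783.FC
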