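import Pool.Agent.TH783.FC.Fd
import Pool.Agent.W889.FO.All

set_option autoImplicit false

/-! The interpretation of arbitrary graphs in flipped subdivided graphs. -/

namespace Pool.Agent.TH783.FC

open FirstOrder FirstOrder.Language
open Pool.Agent.W889.SD (Big Pth Subd Adj')
open Pool.Agent.W889.FO
open Pool.Agent.W889.FO.StE (LG gd siso_gd)

/-- the decoded relation -/
def Xd (s : Bool) (S : LG.Structure ℕ) (u v : ℕ) : Prop := De s (Un (gd S)) u v

/-- the decoded flip -/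
def fd (S : LG.Structure ℕ) (u v : ℕ) : Prop := Fl (gd S) u v

theorem fd2_gd {V : LG.Structure ℕ → Prop} : FD2 V gd := fun _ _ _ => StE.fd_gd _ _

theorem fd2_Xd {V : LG.Structure ℕ → Prop} (s : Bool) : FD2 V (Xd s) :=
  (FD2.un (fd2_gd (V := V))).de s

theorem fd2_fd {V : LG.Structure ℕ → Prop} : FD2 V fd := FD2.fl (fd2_gd (V := V))

/-- the axioms -/
structure WF (r : ℕ) (s : Bool) (f : ℕ → ℕ → Prop) (S : LG.Structure ℕ) : Prop where
  w : W1 r f (Xd s S) (fd S)
  eq : ∀ u v, gd S u v ↔ flip (En s r (Xd s S)) (fd S) u v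

theorem ax_WF (r : ℕ) (s : Bool) (f : ℕ → ℕ → Prop) : Ax (WF r s f) := by
  have h1 := ax_w1 (fd2_Xd (V := fun _ => True) s) fd2_fd r f
  have h2 : Ax (fun S : LG.Structure ℕ => ∀ v : Fin 2 → ℕ, gd S (v 0) (v 1) ↔
      flip (En s r (Xd s S)) (fd S) (v 0) (v 1)) := Ax.ofn 2 <|
    (fd2_gd _ _ _).iff (((fd2_Xd s).en s r).flip fd2_fd _ _ _)
  refine (h1.and h2).congr fun S => ?_
  constructor
  · rintro ⟨k1, k2⟩
    exact ⟨k1, fun u v => k2 ![u, v]⟩
  · rintro ⟨k1, k2⟩
    exact ⟨k1, fun v => k2 _ _⟩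

/-- the interpretation -/
def itp (r : ℕ) (s : Bool) (f : ℕ → ℕ → Prop) : Itp LG LG where
  W := WF r s f
  axW := ax_WF r s f
  dom := fun S u => Big (Xd s S) u
  rel := fun {n} Q => match n, Q with
    | _, FirstOrder.Language.graphRel.adj => fun S v => Adj' (2 * r) (Xd s S) (v 0) (v 1)
  fdom := (fd2_Xd s).big _ _
  frel := fun {n} Q => match n, Q with
    | _, FirstOrder.Language.graphRel.adj => (fd2_Xd s).adj' (2 * r) _ _ _
  inf := fun _ h => inf_of_card h.w.inf

variable {r : ℕ} {s : Bool} {f : ℕ → ℕ → Prop} {S S' : LG.Structure ℕ}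

theorem up (h : WF r s f S) (h' : WF r s f S') (hi : SIso ((itp r s f).D S) ((itp r s f).D S')) :
    SIso S S' := by
  obtain ⟨π, hπ⟩ : ∃ π : {u // Big (Xd s S) u} ≃ {u // Big (Xd s S') u},
      ∀ {n : ℕ} (R : LG.Relations n) (u : Fin n → {u // Big (Xd s S) u}),
        (itp r s f).rel R S (fun i => u i) ↔ (itp r s f).rel R S' (fun i => π (u i)) :=
    ((itp r s f).D_iso_iff h h').1 hi
  obtain ⟨e, h1, h2⟩ := W1.ext h.w h'.w π
    (fun u v => hπ FirstOrder.Language.graphRel.adj (fun m => if m = 0 then u else v))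
  refine siso_gd e fun u v => ?_
  rw [h.eq, h'.eq]
  unfold flip
  rw [← en_map e h1 s u v, ← h2]

theorem cntF (r : ℕ) (s : Bool) (f : ℕ → ℕ → Prop) :
    Itp.Cnt (itp r s f) Unit (fun _ => ()) where
  up := fun _ _ h h' hi _ => up h h' hi
  bp := fun _ _ _ _ => Pool.Agent.W889.VC.BP.const _

/-- existence -/
theorem ex (hr : 1 ≤ r) (hf : ∀ a b, f a b → f b a) (N : LG.Structure ℕ)
    (hs : ∀ u v, gd N u v → gd N v u) (hi : ∀ u, ¬ gd N u u) (hb : ∀ u, Big (gd N) u) :
    ∃ S : LG.Structure ℕ, WF r s f S ∧ SIso ((itp r s f).D S) N := by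
  classical
  obtain ⟨e⟩ : Nonempty (Pool.Agent.W889.SD.Tk (2 * r) ≃ ℕ) := nonempty_equiv_of_countable
  let X : ℕ → ℕ → Prop := fun u v =>
    Pool.Agent.W889.SD.sub (2 * r) (gd N) (e.symm u) (e.symm v)
  let fl : ℕ → ℕ → Prop := fun u v => flT r f (gd N) (e.symm u) (e.symm v)
  have hy : ∀ u v, Pool.Agent.W889.SD.sub (2 * r) (gd N) u v ↔ X (e u) (e v) := by
    intro u v
    simp [X]
  have hy' : ∀ u v, flT r f (gd N) u v ↔ fl (e u) (e v) := by
    intro u v
    simp [fl]
  have hw : W1 r f X fl := (w1_T hs hi hb hf).map e hy hy'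
  let S : LG.Structure ℕ :=
    { funMap := fun {_} f => isEmptyElim f
      RelMap := fun {n} Q => match n, Q with
        | _, FirstOrder.Language.graphRel.adj => fun v => flip (En s r X) fl (v 0) (v 1) }
  have hgd : gd S = flip (En s r X) fl := rfl
  obtain ⟨k1, k2⟩ := hw.unflip hf hr s
  have hX : Xd s S = X := by
    funext u v
    show De s (Un (gd S)) u v = _
    rw [hgd]
    exact propext (k1 u v)
  have hfl : fd S = fl := by
    funext u v
    show Fl (gd S) u v = _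
    rw [hgd]
    exact propext (k2 u v)
  have hW : WF r s f S := by
    refine ⟨?_, fun u v => ?_⟩
    · rw [hX, hfl]
      exact hw
    · rw [hX, hfl, hgd]
  refine ⟨S, hW, ?_⟩
  have hB : ∀ u : ℕ, Big (Xd s S) (e (Sum.inl u)) := fun u => by
    rw [hX]
    exact (Pool.Agent.W889.SD.big_map e hy _).1 (Pool.Agent.W889.SD.big_inl hs hi hb u)
  have hbij : Function.Bijective (fun u : ℕ => (⟨e (Sum.inl u), hB u⟩ :
      {u // Big (Xd s S) u})) := by
    constructor
    · intro u v huv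
      exact Sum.inl.inj (e.injective (congrArg Subtype.val huv))
    · rintro ⟨u, hu⟩
      obtain ⟨t, rfl⟩ := e.surjective u
      have hu' : Big X (e t) := by
        rw [← hX]
        exact hu
      have := (Pool.Agent.W889.SD.big_map e hy t).2 hu'
      rcases t with t | t
      · exact ⟨t, rfl⟩
      · exact absurd this (Pool.Agent.W889.SD.not_big_inr t)
  refine (itp r s f).D_iso hW (Equiv.ofBijective _ hbij) fun {n} Q u => ?_
  cases Q with
  | adj =>
    have e1 : ![u 0, u 1] = u := by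
      funext m
      fin_cases m <;> rfl
    have h1 : @Structure.RelMap LG ℕ N 2 FirstOrder.Language.graphRel.adj u ↔
        gd N (u 0) (u 1) := by
      unfold gd
      rw [e1]
    refine h1.trans ?_
    show gd N (u 0) (u 1) ↔ Adj' (2 * r) (Xd s S) (e (Sum.inl (u 0))) (e (Sum.inl (u 1)))
    rw [hX, ← Pool.Agent.W889.SD.adj_inl hs hi hb (k := 2 * r)]
    constructor
    · rintro ⟨p, hp⟩
      exact ⟨_, (Pool.Agent.W889.SD.pth_map e hy _ _ _).1 hp⟩
    · rintro ⟨p, hp⟩
      refine ⟨fun i => e.symm (p i), (Pool.Agent.W889.SD.pth_map e hy _ _ _).2 ?_⟩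
      have : (fun i => e (e.symm (p i))) = p := by
        funext i
        simp
      rw [this]
      exact hp

/-- the flipped crossings -/
def Cr (r : ℕ) (s : Bool) (f : ℕ → ℕ → Prop) (u v : Vx r) : Prop :=
  u ≠ v ∧ ¬ ((Vx.edge s u v ∨ Vx.edge s v u) ↔ f u.lay v.lay)

/-- isomorphic to an induced subgraph of a flipped crossing -/
def Sub (r : ℕ) (s : Bool) (f : ℕ → ℕ → Prop) (R : ℕ → ℕ → Prop) : Prop :=
  ∃ g : ℕ → Vx r, Function.Injective g ∧ ∀ u v, R u v ↔ Cr r s f (g u) (g v)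

theorem WF.sub (h : WF r s f S) (hr : 1 ≤ r) : Sub r s f (gd S) := by
  choose l hl using h.w.cov
  have hl1 : ∀ u, (∃ v, Xd s S u v) → Ly r (Xd s S) u (l u) := by
    rintro u ⟨v, hv⟩
    rcases hl u with h1 | ⟨h1, -⟩
    · exact h1
    · exact absurd hv (h1 v)
  obtain ⟨g, h1, h2, h3⟩ := emb h.w.sd hl1 (fun u => by have := (l u).2; omega) hr
  refine ⟨g, h1, fun u v => ?_⟩
  rw [h.eq]
  unfold flip Cr
  rw [h2, h2]
  by_cases huv : u = v
  · subst huv
    have e1 := en_irr s h.w.sd u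
    have e2 := h.w.fli _ _ _ _ (hl u) (hl u)
    tauto
  · rw [h1.ne_iff, h3 s u v huv, h.w.fli _ _ _ _ (hl u) (hl v)]
    tauto

theorem sub_symm {R : ℕ → ℕ → Prop} (h : Sub r s f R) (hf : ∀ a b, f a b → f b a) {u v : ℕ}
    (hu : R u v) : R v u := by
  obtain ⟨g, h1, h2⟩ := h
  rw [h2] at hu ⊢
  obtain ⟨h3, h4⟩ := hu
  refine ⟨h3.symm, fun h5 => h4 ?_⟩
  rw [or_comm, h5]
  exact ⟨hf _ _, hf _ _⟩

theorem sub_irr {R : ℕ → ℕ → Prop} (h : Sub r s f R) (u : ℕ) : ¬ R u u := by
  obtain ⟨g, h1, h2⟩ := h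
  rw [h2]
  exact fun h => h.1 rfl

/-- the reduction -/
theorem reduce (hr : 1 ≤ r) (hf : ∀ a b, f a b → f b a)
    (hV : ∀ T' : LG.Theory, (∀ S : LG.Structure ℕ,
      @Theory.Model LG ℕ S T' → Sub r s f (gd S)) → Vaught LG T') (T : LG.Theory)
    (hT : ∀ S : LG.Structure ℕ, @Theory.Model LG ℕ S T → (∀ u v, gd S u v → gd S v u) ∧
      (∀ u, ¬ gd S u u) ∧ ∀ u, Big (gd S) u) :
    Vaught LG T := by
  have := StD.countable_LG
  refine (itp r s f).transfer (cntF r s f) T (fun M hM => ?_) fun T' hT' =>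
    hV T' fun S hS => (hT' S hS).1.sub hr
  obtain ⟨h1, h2, h3⟩ := hT M hM
  exact ex hr hf M h1 h2 h3

/-- Vaught's conjecture reduces to theories of graphs without vertices of small degree. -/
theorem to_big (hV : ∀ T' : LG.Theory, (∀ S : LG.Structure ℕ,
      @Theory.Model LG ℕ S T' → (∀ u v, gd S u v → gd S v u) ∧
      (∀ u, ¬ gd S u u) ∧ ∀ u, Big (gd S) u) → Vaught LG T')
    (L : FirstOrder.Language.{0, 0}) [L.IsRelational] [Countable (Σ n, L.Relations n)]
    (T : L.Theory) : Vaught L T := by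
  refine reduceAB (fun T1 => ?_) L T
  have hfin : Finite (Σ n, StB.LB.Relations n) := finite_LB
  have : Countable (Σ n, StB.LB.Relations n) := Finite.to_countable
  obtain ⟨p, hp⟩ := Countable.exists_injective_nat (Σ n, StB.LB.Relations n)
  refine StC.reduce (L := StB.LB) ⟨fun n Q => ?_, p, hp⟩ (fun T2 hT2 => ?_) T1
  · cases Q with
    | D => exact Or.inl rfl
    | C => exact Or.inl rfl
    | M => exact Or.inl rfl
    | fs => exact Or.inr rfl
    | sn => exact Or.inr rfl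
    | sc => exact Or.inr rfl
  have : Countable (StC.KC StB.LB) := Finite.to_countable
  obtain ⟨w, hw⟩ := Countable.exists_injective_nat (StC.KC StB.LB)
  exact StE.reduce w hw (fun T3 hT3 => hV T3 hT3) T2 hT2

/-- Vaught's conjecture reduces to theories of induced subgraphs of flipped crossings. -/
theorem main (hr : 1 ≤ r) (hf : ∀ a b, f a b → f b a)
    (hV : ∀ T' : LG.Theory, T'.IsComplete → (∀ S : LG.Structure ℕ,
      @Theory.Model LG ℕ S T' → Sub r s f (gd S)) → VaughtF LG T')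
    (L : FirstOrder.Language.{0, 0}) (hL : Countable L.Symbols) (T : L.Theory) :
    VaughtF L T := by
  refine St0.reduce L (fun T1 => ?_) T
  have := St0.countable_LF (L := L)
  refine to_big (fun T2 hT2 => reduce (s := s) hr hf (fun T3 hT3 => ?_) T2 hT2) _ T1
  have := StD.countable_LG
  refine of_complete T3 fun S hS => ?_
  refine (vaughtF_iff _ _).1 (hV _ ?_ fun S' hS' => ?_)
  · exact @completeTheory.isComplete LG ℕ S _
  · exact hT3 S' (ax_iff.2 fun φ hφ => ax_iff.1 hS' φ (ax_iff.1 hS φ hφ))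

end Pool.Agent.TH783.FC
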