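import Pool.Agent.W889.SD.Enc

set_option autoImplicit false

/-! Layers of subdivided graphs. -/

namespace Pool.Agent.TH783.FC

open Pool.Agent.W889.SD

variable {T : Type} {r : ℕ} {X : T → T → Prop}

/-- the layers -/
def Ly (r : ℕ) (X : T → T → Prop) (u : T) (a : ℕ) : Prop :=
  (Big X u ∧ a = 0) ∨ ∃ w p w', ∃ i : Fin (2 * r + 1), Pth (2 * r) X w p w' ∧ p i = u ∧
    a = min ((i : ℕ) + 1) (2 * r + 1 - i)

theorem ly_zero {u : T} : Ly r X u 0 ↔ Big X u := by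
  constructor
  · rintro (⟨h, -⟩ | ⟨w, p, w', i, -, -, h⟩)
    · exact h
    · have := i.2
      omega
  · exact fun h => Or.inl ⟨h, rfl⟩

theorem ly_of {w w' : T} {p : Fin (2 * r + 1) → T} (h : Pth (2 * r) X w p w')
    (i : Fin (2 * r + 1)) : Ly r X (p i) (min ((i : ℕ) + 1) (2 * r + 1 - i)) :=
  Or.inr ⟨w, p, w', i, h, rfl, rfl⟩

theorem ly_of' {w w' : T} {p : Fin (2 * r + 1) → T} (h : Pth (2 * r) X w p w')
    (i : Fin (2 * r + 1)) (hi : (i : ℕ) ≤ r) {a : ℕ} (ha : a = i + 1) : Ly r X (p i) a := by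
  have := ly_of h i
  have e : min ((i : ℕ) + 1) (2 * r + 1 - i) = a := by omega
  rwa [e] at this

theorem ly_le {u : T} {a : ℕ} (h : Ly r X u a) : a ≤ r + 1 := by
  rcases h with ⟨-, h⟩ | ⟨w, p, w', i, -, -, h⟩
  · omega
  · omega

theorem pth_nb {w w' : T} {p : Fin (2 * r + 1) → T} (h : Pth (2 * r) X w p w')
    (i : Fin (2 * r + 1)) : ∃ v, X (p i) v := by
  by_cases hi : (i : ℕ) = 2 * r
  · exact ⟨_, h.en i hi⟩
  · exact ⟨_, h.mid i ⟨i + 1, by have := i.2; omega⟩ rfl⟩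

theorem ly_noniso {u : T} {a : ℕ} (h : Ly r X u a) : ∃ v, X u v := by
  rcases h with ⟨⟨b, -, -, -, -, -, h, -⟩, -⟩ | ⟨w, p, w', i, h1, rfl, h⟩
  · exact ⟨b, h⟩
  · exact pth_nb h1 i

variable (hX : Subd (2 * r) X)

include hX

theorem ly_ex {u : T} (h : ∃ v, X u v) : ∃ a, Ly r X u a := by
  by_cases hb : Big X u
  · exact ⟨0, ly_zero.2 hb⟩
  · rcases hX.cov u hb with h1 | ⟨w, p, w', i, h1, rfl⟩
    · obtain ⟨v, hv⟩ := h
      exact absurd hv (h1 v)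
    · exact ⟨_, ly_of h1 i⟩

theorem ly_uq {u : T} {a b : ℕ} (h : Ly r X u a) (h' : Ly r X u b) : a = b := by
  rcases h with ⟨h1, h2⟩ | ⟨w, p, w', i, h1, h2, h3⟩ <;>
    rcases h' with ⟨k1, k2⟩ | ⟨v, q, v', j, k1, k2, k3⟩
  · omega
  · exact absurd (k2 ▸ h1) (k1.nb j)
  · exact absurd (h2 ▸ k1) (h1.nb i)
  · rcases hX.uniq w p w' v q v' i j h1 k1 (h2.trans k2.symm) with ⟨-, -, e⟩ | ⟨-, -, e⟩
    · rw [h3, k3, e]
    · omega

theorem ly_norm {u : T} {a : ℕ} (h : Ly r X u (a + 1)) :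
    a ≤ r ∧ ∃ w p w', ∃ i : Fin (2 * r + 1), Pth (2 * r) X w p w' ∧ (i : ℕ) = a ∧ p i = u := by
  rcases h with ⟨-, h⟩ | ⟨w, p, w', i, h1, h2, h3⟩
  · omega
  · by_cases hi : (i : ℕ) ≤ r
    · exact ⟨by omega, w, p, w', i, h1, by omega, h2⟩
    · refine ⟨by omega, w', _, w, i.rev, h1.rev hX.symm, ?_, ?_⟩
      · rw [Fin.val_rev]
        omega
      · show p i.rev.rev = u
        rw [Fin.rev_rev, h2]

theorem ly_adj {u v : T} {a b : ℕ} (h : X u v) (ha : Ly r X u a) (hb : Ly r X v b) :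
    b = a + 1 ∨ a = b + 1 := by
  have key : ∀ u v a b, X u v → Ly r X v b → (∃ w p w', ∃ i : Fin (2 * r + 1),
      Pth (2 * r) X w p w' ∧ p i = u ∧ a = min ((i : ℕ) + 1) (2 * r + 1 - i)) →
      b = a + 1 ∨ a = b + 1 := by
    rintro u v a b h hb ⟨w, p, w', i, h1, rfl, h3⟩
    rcases hX.cl w p w' i v h1 h with ⟨e1, e2⟩ | ⟨e1, e2⟩ | ⟨j, e1, e2⟩
    · have : b = 0 := ly_uq hX hb (by rw [e1]; exact ly_zero.2 h1.bw)
      omega
    · have : b = 0 := ly_uq hX hb (by rw [e1]; exact ly_zero.2 h1.bw')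
      omega
    · have h5 : b = min ((j : ℕ) + 1) (2 * r + 1 - j) :=
        ly_uq hX hb (by rw [e1]; exact ly_of h1 j)
      have := i.2
      have := j.2
      omega
  rcases ha with ⟨h1, h2⟩ | h1
  · rcases hb with ⟨k1, k2⟩ | k1
    · exact absurd h (hX.indep _ _ h1 k1)
    · have := key v u b a (hX.symm _ _ h) (Or.inl ⟨h1, h2⟩) k1
      omega
  · exact key u v a b h hb h1

theorem ly_nb {u : T} {a : ℕ} (h : Ly r X u (a + 1)) : ¬ Big X u := fun hb => by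
  have := ly_uq hX h (ly_zero.2 hb)
  omega

theorem low_ex {u : T} {a : ℕ} (h : Ly r X u (a + 1)) : ∃ v, Ly r X v a ∧ X u v := by
  obtain ⟨h1, w, p, w', i, h2, h3, rfl⟩ := ly_norm hX h
  by_cases h0 : a = 0
  · subst h0
    exact ⟨w, ly_zero.2 h2.bw, hX.symm _ _ (h2.st i h3)⟩
  · have h4 : (i : ℕ) - 1 < 2 * r + 1 := by have := i.2; omega
    exact ⟨p ⟨i - 1, h4⟩, ly_of' h2 _ (by simp; omega) (by simp; omega),
      hX.symm _ _ (h2.mid _ _ (by simp; omega))⟩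

theorem upp_ex {u : T} {a : ℕ} (h : Ly r X u (a + 1)) (ha : a + 1 ≤ r) :
    ∃ v, Ly r X v (a + 2) ∧ X u v := by
  obtain ⟨h1, w, p, w', i, h2, h3, rfl⟩ := ly_norm hX h
  have h4 : (i : ℕ) + 1 < 2 * r + 1 := by omega
  exact ⟨p ⟨i + 1, h4⟩, ly_of' h2 _ (by simp; omega) (by simp; omega), h2.mid _ _ rfl⟩

theorem low_uq {u v v' : T} {a : ℕ} (h : Ly r X u (a + 1)) (ha : a + 1 ≤ r) (h1 : X u v)
    (h2 : Ly r X v a) (h3 : X u v') (h4 : Ly r X v' a) : v = v' := by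
  obtain ⟨-, w, p, w', i, k1, k2, rfl⟩ := ly_norm hX h
  have key : ∀ v, X (p i) v → Ly r X v a → (v = w ∧ a = 0) ∨
      ∃ j : Fin (2 * r + 1), v = p j ∧ (j : ℕ) + 1 = a := by
    intro v h1 h2
    rcases hX.cl w p w' i v k1 h1 with ⟨e1, e2⟩ | ⟨e1, e2⟩ | ⟨j, e1, e2 | e2⟩
    · exact Or.inl ⟨e1, by omega⟩
    · omega
    · have : a = j + 1 := ly_uq hX h2 (by rw [e1]; exact ly_of' k1 j (by omega) rfl)
      omega
    · exact Or.inr ⟨j, e1, by omega⟩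
  rcases key v h1 h2 with ⟨e1, e2⟩ | ⟨j, e1, e2⟩ <;>
    rcases key v' h3 h4 with ⟨e3, e4⟩ | ⟨j', e3, e4⟩
  · rw [e1, e3]
  · omega
  · omega
  · have : j = j' := Fin.ext (by omega)
    rw [e1, e3, this]

theorem upp_uq {u v v' : T} {a : ℕ} (h : Ly r X u (a + 1)) (ha : a + 1 ≤ r) (h1 : X u v)
    (h2 : Ly r X v (a + 2)) (h3 : X u v') (h4 : Ly r X v' (a + 2)) : v = v' := by
  obtain ⟨-, w, p, w', i, k1, k2, rfl⟩ := ly_norm hX h
  have key : ∀ v, X (p i) v → Ly r X v (a + 2) →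
      ∃ j : Fin (2 * r + 1), v = p j ∧ (j : ℕ) = a + 1 := by
    intro v h1 h2
    rcases hX.cl w p w' i v k1 h1 with ⟨e1, e2⟩ | ⟨e1, e2⟩ | ⟨j, e1, e2 | e2⟩
    · have : a + 2 = 0 := ly_uq hX h2 (by rw [e1]; exact ly_zero.2 k1.bw)
      omega
    · omega
    · exact ⟨j, e1, by omega⟩
    · have : a + 2 = j + 1 := ly_uq hX h2 (by rw [e1]; exact ly_of' k1 j (by omega) rfl)
      omega
  obtain ⟨j, e1, e2⟩ := key v h1 h2
  obtain ⟨j', e3, e4⟩ := key v' h3 h4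
  have : j = j' := Fin.ext (by omega)
  rw [e1, e3, this]

theorem col_nb (hr : 1 ≤ r) {u : T} (h : Ly r X u (r + 1)) : ∃ x x', x ≠ x' ∧ X u x ∧ X u x' ∧
    (∀ y, X u y → y = x ∨ y = x') ∧ ∀ y, X x y → X x' y → y = u := by
  obtain ⟨-, w, p, w', i, k1, k2, rfl⟩ := ly_norm hX h
  have l1 : r - 1 < 2 * r + 1 := by omega
  have l2 : r + 1 < 2 * r + 1 := by omega
  refine ⟨p ⟨r - 1, l1⟩, p ⟨r + 1, l2⟩, fun e => ?_, hX.symm _ _ (k1.mid _ _ ?_),
    k1.mid _ _ ?_, fun y hy => ?_, fun y hy hy' => ?_⟩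
  · have := congrArg Fin.val (k1.inj e)
    simp at this
  · simp
    omega
  · simp
    omega
  · rcases hX.cl w p w' i y k1 hy with ⟨e1, e2⟩ | ⟨e1, e2⟩ | ⟨j, e1, e2 | e2⟩
    · omega
    · omega
    · right
      rw [e1]
      congr 1
      apply Fin.ext
      simp
      omega
    · left
      rw [e1]
      congr 1
      apply Fin.ext
      simp
      omega
  · rcases hX.cl w p w' _ y k1 hy with ⟨e1, e2⟩ | ⟨e1, e2⟩ | ⟨j, e1, e2⟩ <;>
      rcases hX.cl w p w' _ y k1 hy' with ⟨e3, e4⟩ | ⟨e3, e4⟩ | ⟨j', e3, e4⟩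
    · simp at e4
    · exact absurd (e1.symm.trans e3) k1.ne
    · exact absurd (by rw [← e3, e1]; exact k1.bw) (k1.nb j')
    · simp at e2
      omega
    · simp at e2
      omega
    · simp at e2
      omega
    · simp at e4
    · exact absurd (by rw [← e1, e3]; exact k1.bw') (k1.nb j)
    · have h3 := congrArg Fin.val (k1.inj (e1.symm.trans e3))
      simp at e2 e4
      rw [e1]
      congr 1
      apply Fin.ext
      omega

/-- all layers are non-empty -/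
theorem ly_all {w : T} (hw : Big X w) (a : ℕ) (ha : a ≤ r + 1) : ∃ u, Ly r X u a := by
  rcases Nat.eq_zero_or_pos a with rfl | hpos
  · exact ⟨w, ly_zero.2 hw⟩
  · obtain ⟨u, -, -, -, -, -, h, -⟩ := id hw
    have hu : ¬ Big X u := fun h' => hX.indep _ _ hw h' h
    rcases hX.cov u hu with h1 | ⟨w, p, w', i, h1, rfl⟩
    · exact absurd (hX.symm _ _ h) (h1 _)
    · exact ⟨p ⟨a - 1, by omega⟩, ly_of' h1 _ (by simp; omega) (by simp; omega)⟩

end Pool.Agent.TH783.FC
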