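import Pool.Agent.TH783.FC.Emb

set_option autoImplicit false

/-! Subdivided graphs with a flip between the layers. -/

namespace Pool.Agent.TH783.FC

open Pool.Agent.W889.SD

section gen

variable {T : Type} {r : ℕ} {f : ℕ → ℕ → Prop} {X fl : T → T → Prop}

/-- the type of an isolated vertex -/
def TT (r : ℕ) (f : ℕ → ℕ → Prop) (X fl : T → T → Prop) (z : T) (a : ℕ) : Prop :=
  ∀ b : Fin (r + 2), ∀ v, Ly r X v b → (fl z v ↔ f a b)

/-- layers of all vertices -/
def La (r : ℕ) (f : ℕ → ℕ → Prop) (X fl : T → T → Prop) (u : T) (a : ℕ) : Prop :=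
  Ly r X u a ∨ ((∀ v, ¬ X u v) ∧ TT r f X fl u a)

/-- subdivided graphs with a flip -/
structure W1 (r : ℕ) (f : ℕ → ℕ → Prop) (X fl : T → T → Prop) : Prop where
  sd : Subd (2 * r) X
  inf : ∀ m : ℕ, ∃ x : Fin m → T, Function.Injective x ∧ ∀ i, Big X (x i)
  cov : ∀ u, ∃ a : Fin (r + 2), La r f X fl u a
  fli : ∀ a b : Fin (r + 2), ∀ u v, La r f X fl u a → La r f X fl v b →
    (fl u v ↔ u ≠ v ∧ f a b)
  mi : ∀ a : Fin (r + 2), ∀ m : ℕ, ∃ x : Fin m → T, Function.Injective x ∧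
    ∀ i, (∀ v, ¬ X (x i) v) ∧ TT r f X fl (x i) a

theorem W1.big (h : W1 r f X fl) : ∃ w, Big X w := by
  obtain ⟨x, -, h2⟩ := h.inf 1
  exact ⟨x 0, h2 0⟩

/-- a set with arbitrarily many elements has elements outside finite sets -/
theorem out {P : T → Prop} (h : ∀ m : ℕ, ∃ x : Fin m → T, Function.Injective x ∧ ∀ i, P (x i))
    (s : Finset T) : ∃ z, z ∉ s ∧ P z := by
  classical
  obtain ⟨x, h1, h2⟩ := h (s.card + 1)
  by_contra hcon
  push Not at hcon
  have h3 : ∀ i, x i ∈ s := fun i => by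
    by_contra h4
    exact hcon _ h4 (h2 i)
  have h4 : (Finset.univ.image x).card ≤ s.card := Finset.card_le_card fun y hy => by
    rw [Finset.mem_image] at hy
    obtain ⟨i, -, rfl⟩ := hy
    exact h3 i
  rw [Finset.card_image_of_injective _ h1, Finset.card_univ, Fintype.card_fin] at h4
  omega

/-- types agree if they are types of the same vertex -/
theorem W1.same (h : W1 r f X fl) {z : T} {a a' : ℕ} (h1 : TT r f X fl z a)
    (h2 : TT r f X fl z a') (b : Fin (r + 2)) : f a b ↔ f a' b := by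
  obtain ⟨w, hw⟩ := h.big
  obtain ⟨y, hy⟩ := ly_all h.sd hw b (by have := b.2; omega)
  rw [← h1 b y hy, ← h2 b y hy]

theorem W1.good (h : W1 r f X fl) (hf : ∀ a b, f a b → f b a) (hr : 1 ≤ r) (s : Bool) :
    Good (En s r X) fl where
  irr := en_irr s h.sd
  sy := fun u v => en_symm s h.sd
  tw := fun u hu => tw_en h.sd hr s hu
  lay := by
    choose l hl using h.cov
    refine ⟨Fin (r + 2), l, fun a b => f a b, fun a b => hf _ _, fun u v =>
      h.fli _ _ _ _ (hl u) (hl v), fun u s' => ?_⟩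
    obtain ⟨z, h1, h2, h3⟩ := out (P := fun z => (∀ v, ¬ X z v) ∧ TT r f X fl z (l u))
      (h.mi (l u)) s'
    refine ⟨z, h1, (en_iso h.sd s z).2 h2, fun w => ?_⟩
    obtain ⟨w0, hw0⟩ := h.big
    obtain ⟨y, hy⟩ := ly_all h.sd hw0 (l w) (by have := (l w).2; omega)
    have k1 := h.fli _ _ _ _ (hl z) (Or.inl hy)
    have k2 := h.fli _ _ _ _ (Or.inr ⟨h2, h3⟩) (Or.inl hy)
    have hne : z ≠ y := fun e => by
      obtain ⟨v, hv⟩ := ly_noniso hy
      exact h2 v (e ▸ hv)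
    tauto

/-- decoding -/
theorem W1.unflip (h : W1 r f X fl) (hf : ∀ a b, f a b → f b a) (hr : 1 ≤ r) (s : Bool) :
    (∀ u v, De s (Un (flip (En s r X) fl)) u v ↔ X u v) ∧
      ∀ u v, Fl (flip (En s r X) fl) u v ↔ fl u v := by
  obtain ⟨h1, h2⟩ := (h.good hf hr s).unflip
  refine ⟨fun u v => ?_, h2⟩
  have e : Un (flip (En s r X) fl) = En s r X := by
    funext u v
    exact propext (h1 u v)
  rw [e]
  exact de_en h.sd hr s

end gen

section map

variable {T S : Type} {r : ℕ} {f : ℕ → ℕ → Prop} {y fl : T → T → Prop} {z fl' : S → S → Prop}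
  (e : T ≃ S) (h : ∀ u v, y u v ↔ z (e u) (e v))

include h in
theorem ly_map (u : T) (a : ℕ) : Ly r y u a ↔ Ly r z (e u) a := by
  unfold Ly
  rw [big_map e h]
  refine or_congr Iff.rfl ?_
  constructor
  · rintro ⟨w, p, w', i, h1, rfl, h3⟩
    exact ⟨e w, fun i => e (p i), e w', i, (pth_map e h _ _ _).1 h1, rfl, h3⟩
  · rintro ⟨w, p, w', i, h1, h2, h3⟩
    refine ⟨e.symm w, fun i => e.symm (p i), e.symm w', i, (pth_map e h _ _ _).2 ?_, ?_, h3⟩
    · have e1 : (fun i => e (e.symm (p i))) = p := by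
        funext i
        simp
      rw [e1]
      simpa using h1
    · show e.symm (p i) = u
      rw [h2]
      simp

include h in
theorem iso_map (u : T) : (∀ v, ¬ y u v) ↔ ∀ v, ¬ z (e u) v := by
  constructor
  · intro h1 v hv
    obtain ⟨v, rfl⟩ := e.surjective v
    exact h1 v ((h _ _).2 hv)
  · intro h1 v hv
    exact h1 _ ((h _ _).1 hv)

include h in
theorem ce_map (u : T) : Ce r y u ↔ Ce r z (e u) := by
  unfold Ce
  rw [ly_map e h, ly_map e h]

include h in
theorem en_map (s : Bool) (u v : T) : En s r y u v ↔ En s r z (e u) (e v) := by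
  unfold En
  rw [h]
  refine or_congr Iff.rfl (and_congr Iff.rfl (and_congr ?_ ?_))
  · exact e.injective.ne_iff.symm
  · constructor
    · rintro ⟨c, h1, h2, h3⟩
      exact ⟨e c, (ce_map e h c).1 h1, (h _ _).1 h2, (h _ _).1 h3⟩
    · rintro ⟨c, h1, h2, h3⟩
      obtain ⟨c, rfl⟩ := e.surjective c
      exact ⟨c, (ce_map e h c).2 h1, (h _ _).2 h2, (h _ _).2 h3⟩

variable (h' : ∀ u v, fl u v ↔ fl' (e u) (e v))

include h h'

theorem tt_map (u : T) (a : ℕ) : TT r f y fl u a ↔ TT r f z fl' (e u) a := by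
  unfold TT
  constructor
  · intro h1 b v hv
    obtain ⟨v, rfl⟩ := e.surjective v
    rw [← h']
    exact h1 b v ((ly_map e h v b).2 hv)
  · intro h1 b v hv
    rw [h']
    exact h1 b (e v) ((ly_map e h v b).1 hv)

theorem la_map (u : T) (a : ℕ) : La r f y fl u a ↔ La r f z fl' (e u) a := by
  unfold La
  rw [ly_map e h, iso_map e h, tt_map e h h']

theorem W1.map (hy : W1 r f y fl) : W1 r f z fl' where
  sd := hy.sd.map e h
  inf := fun m => by
    obtain ⟨x, h1, h2⟩ := hy.inf m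
    exact ⟨fun i => e (x i), e.injective.comp h1, fun i => (big_map e h _).1 (h2 i)⟩
  cov := fun u => by
    obtain ⟨u, rfl⟩ := e.surjective u
    obtain ⟨a, ha⟩ := hy.cov u
    exact ⟨a, (la_map e h h' u a).1 ha⟩
  fli := fun a b u v hu hv => by
    obtain ⟨u, rfl⟩ := e.surjective u
    obtain ⟨v, rfl⟩ := e.surjective v
    rw [← h', e.injective.ne_iff]
    exact hy.fli a b u v ((la_map e h h' u a).2 hu) ((la_map e h h' v b).2 hv)
  mi := fun a m => by
    obtain ⟨x, h1, h2⟩ := hy.mi a m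
    exact ⟨fun i => e (x i), e.injective.comp h1, fun i =>
      ⟨(iso_map e h _).1 (h2 i).1, (tt_map e h h' _ a).1 (h2 i).2⟩⟩

end map

section ext

/-- a bijection which respects the fibres -/
theorem fib_equiv {I I' C : Type} (t : I → C) (t' : I' → C)
    (h : ∀ c, Nonempty ({i // t i = c} ≃ {i // t' i = c})) :
    ∃ ι : I ≃ I', ∀ i, t' (ι i) = t i := by
  let E : ∀ c, {i // t i = c} ≃ {i // t' i = c} := fun c => Classical.choice (h c)
  let ι : I ≃ I' := (Equiv.sigmaFiberEquiv t).symm.trans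
    ((Equiv.sigmaCongrRight E).trans (Equiv.sigmaFiberEquiv t'))
  refine ⟨ι, fun i => ?_⟩
  exact (E (t i) ⟨i, rfl⟩).2

variable {r : ℕ} {f : ℕ → ℕ → Prop} {X fl X' fl' : ℕ → ℕ → Prop}

/-- the type of an isolated vertex as a set of layers -/
def ty (r : ℕ) (X fl : ℕ → ℕ → Prop) (z : ℕ) (b : Fin (r + 2)) : Prop :=
  ∃ v, Ly r X v b ∧ fl z v

theorem W1.ty_iff (h : W1 r f X fl) {z : ℕ} (a : ℕ) :
    TT r f X fl z a ↔ (∀ b, ty r X fl z b ↔ f a b) ∧ TT r f X fl z a := by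
  constructor
  · intro h1
    refine ⟨fun b => ?_, h1⟩
    constructor
    · rintro ⟨v, h2, h3⟩
      exact (h1 b v h2).1 h3
    · intro h2
      obtain ⟨w, hw⟩ := h.big
      obtain ⟨y, hy⟩ := ly_all h.sd hw b (by have := b.2; omega)
      exact ⟨y, hy, (h1 b y hy).2 h2⟩
  · exact fun h1 => h1.2

/-- isolated vertices with the same type -/
theorem W1.tt_of_ty (h : W1 r f X fl) {z : ℕ} (hz : ∀ v, ¬ X z v) (a : ℕ)
    (h1 : ∀ b, ty r X fl z b ↔ f a b) : TT r f X fl z a := by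
  obtain ⟨a', ha'⟩ := h.cov z
  rcases ha' with ha' | ⟨-, ha'⟩
  · obtain ⟨v, hv⟩ := ly_noniso ha'
    exact absurd hv (hz v)
  · have h2 := ((h.ty_iff a').1 ha').1
    intro b v hv
    rw [← h1 b, h2 b]
    exact ha' b v hv

theorem W1.fib (h : W1 r f X fl) (h' : W1 r f X' fl') (c : Fin (r + 2) → Prop) :
    Nonempty ({i : {u // ∀ v, ¬ X u v} // ty r X fl i = c} ≃
      {i : {u // ∀ v, ¬ X' u v} // ty r X' fl' i = c}) := by
  by_cases hc : ∃ a : Fin (r + 2), ∀ b : Fin (r + 2), c b ↔ f a b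
  · obtain ⟨a, ha⟩ := hc
    have key : ∀ {X fl : ℕ → ℕ → Prop}, W1 r f X fl →
        Infinite {i : {u // ∀ v, ¬ X u v} // ty r X fl i = c} := by
      intro X fl h
      have h1 : ∀ N, ∃ u, N ≤ u ∧ (∀ v, ¬ X u v) ∧ TT r f X fl u a := by
        intro N
        obtain ⟨u, hu1, hu2⟩ := out (P := fun z => (∀ v, ¬ X z v) ∧ TT r f X fl z a)
          (h.mi a) (Finset.range N)
        exact ⟨u, by simpa using hu1, hu2⟩
      have h3 : Infinite {u // (∀ v, ¬ X u v) ∧ TT r f X fl u a} := by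
        obtain ⟨e, -⟩ := nth_equiv h1
        exact Infinite.of_injective e e.injective
      refine Infinite.of_injective (fun u : {u // (∀ v, ¬ X u v) ∧ TT r f X fl u a} =>
        (⟨⟨u, u.2.1⟩, funext fun b => propext ((((h.ty_iff a).1 u.2.2).1 b).trans (ha b).symm)⟩ :
          {i : {u // ∀ v, ¬ X u v} // ty r X fl i = c})) fun u v huv => ?_
      have := congrArg (fun i => (i.1.1 : ℕ)) huv
      exact Subtype.ext this
    have i1 := key h
    have i2 := key h'
    exact nonempty_equiv_of_countable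
  · have key : ∀ {X fl : ℕ → ℕ → Prop}, W1 r f X fl →
        IsEmpty {i : {u // ∀ v, ¬ X u v} // ty r X fl i = c} := by
      intro X fl h
      refine ⟨fun i => hc ?_⟩
      obtain ⟨a, ha⟩ := h.cov i.1
      rcases ha with ha | ⟨-, ha⟩
      · obtain ⟨v, hv⟩ := ly_noniso ha
        exact absurd hv (i.1.2 v)
      · refine ⟨a, fun b => ?_⟩
        rw [← congrFun i.2 b]
        exact ((h.ty_iff a).1 ha).1 b
    have i1 := key h
    have i2 := key h'
    exact ⟨Equiv.equivOfIsEmpty _ _⟩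

/-- the graph on the roots determines the structure -/
theorem W1.ext (h : W1 r f X fl) (h' : W1 r f X' fl') (π : {u // Big X u} ≃ {u // Big X' u})
    (hπ : ∀ u v : {u // Big X u}, Adj' (2 * r) X u v ↔ Adj' (2 * r) X' (π u) (π v)) :
    ∃ e : ℕ ≃ ℕ, (∀ u v, X u v ↔ X' (e u) (e v)) ∧ ∀ u v, fl u v ↔ fl' (e u) (e v) := by
  classical
  obtain ⟨ι, hι⟩ := fib_equiv (fun i : {u // ∀ v, ¬ X u v} => ty r X fl i)
    (fun i : {u // ∀ v, ¬ X' u v} => ty r X' fl' i) (h.fib h')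
  obtain ⟨e, he⟩ := Subd.ext h.sd h'.sd π hπ ι
  let E : ℕ ≃ ℕ := (Equiv.sumCompl fun u => ∀ v, ¬ X u v).symm.trans
    ((Equiv.sumCongr ι (e.subtypeEquiv fun u => not_congr (iso_map e he u))).trans
      (Equiv.sumCompl fun u => ∀ v, ¬ X' u v))
  have E1 : ∀ u (hu : ∀ v, ¬ X u v), E u = ι ⟨u, hu⟩ := by
    intro u hu
    show (Equiv.sumCompl _) ((Equiv.sumCongr ι _) ((Equiv.sumCompl _).symm u)) = _
    rw [Equiv.sumCompl_symm_apply_of_pos hu]
    rfl
  have E2 : ∀ u (hu : ¬ ∀ v, ¬ X u v), E u = e u := by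
    intro u hu
    show (Equiv.sumCompl _) ((Equiv.sumCongr ι _) ((Equiv.sumCompl _).symm u)) = _
    rw [Equiv.sumCompl_symm_apply_of_neg hu]
    rfl
  have hX : ∀ u v, X u v ↔ X' (E u) (E v) := by
    intro u v
    by_cases hu : ∀ v, ¬ X u v
    · have h1 := (ι ⟨u, hu⟩).2
      rw [E1 u hu]
      exact ⟨fun h2 => absurd h2 (hu v), fun h2 => absurd h2 (h1 _)⟩
    · by_cases hv : ∀ u, ¬ X v u
      · have h1 := (ι ⟨v, hv⟩).2
        rw [E1 v hv]
        exact ⟨fun h2 => absurd (h.sd.symm _ _ h2) (hv u),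
          fun h2 => absurd (h'.sd.symm _ _ h2) (h1 _)⟩
      · rw [E2 u hu, E2 v hv]
        exact he u v
  refine ⟨E, hX, ?_⟩
  have hla : ∀ u (a : Fin (r + 2)), La r f X fl u a → La r f X' fl' (E u) a := by
    intro u a ha
    rcases ha with ha | ⟨hu, ha⟩
    · exact Or.inl ((ly_map E hX u a).1 ha)
    · refine Or.inr ⟨(iso_map E hX u).1 hu, ?_⟩
      rw [E1 u hu]
      refine h'.tt_of_ty (ι ⟨u, hu⟩).2 a fun b => ?_
      have h1 := hι ⟨u, hu⟩
      have h2 : ty r X' fl' (ι ⟨u, hu⟩) b ↔ ty r X fl u b := iff_of_eq (congrFun h1 b)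
      rw [h2]
      exact ((h.ty_iff a).1 ha).1 b
  intro u v
  obtain ⟨a, ha⟩ := h.cov u
  obtain ⟨b, hb⟩ := h.cov v
  rw [h.fli a b u v ha hb, h'.fli a b _ _ (hla u a ha) (hla v b hb), E.injective.ne_iff]

end ext

section ex

variable {r : ℕ} {f : ℕ → ℕ → Prop} {x : ℕ → ℕ → Prop}

open Classical in
/-- layers of the places -/
noncomputable def lamT (r : ℕ) (x : ℕ → ℕ → Prop) : Tk (2 * r) → ℕ
  | Sum.inl _ => 0
  | Sum.inr (a, b, i) => if a < b ∧ x a b then min ((i : ℕ) + 1) (2 * r + 1 - i) else a % (r + 2)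

/-- the flip -/
def flT (r : ℕ) (f : ℕ → ℕ → Prop) (x : ℕ → ℕ → Prop) (u v : Tk (2 * r)) : Prop :=
  u ≠ v ∧ f (lamT r x u) (lamT r x v)

theorem lamT_pos {a b : ℕ} (i : Fin (2 * r + 1)) (h : a < b ∧ x a b) :
    lamT r x (Sum.inr (a, b, i)) = min ((i : ℕ) + 1) (2 * r + 1 - i) := if_pos h

theorem lamT_neg {a b : ℕ} (i : Fin (2 * r + 1)) (h : ¬ (a < b ∧ x a b)) :
    lamT r x (Sum.inr (a, b, i)) = a % (r + 2) := if_neg h

theorem lamT_le (u : Tk (2 * r)) : lamT r x u < r + 2 := by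
  classical
  rcases u with u | ⟨a, b, i⟩
  · show 0 < r + 2
    omega
  · by_cases h : a < b ∧ x a b
    · rw [lamT_pos i h]
      have := i.2
      omega
    · rw [lamT_neg i h]
      exact Nat.mod_lt _ (by omega)

variable (hs : ∀ u v, x u v → x v u) (hi : ∀ u, ¬ x u u) (hb : ∀ u, Big x u)

include hs hi hb

theorem lamT_ly (u : Tk (2 * r)) : Ly r (sub (2 * r) x) u (lamT r x u) ∨
    ∀ v, ¬ sub (2 * r) x u v := by
  classical
  rcases u with u | ⟨a, b, i⟩
  · exact Or.inl (ly_zero.2 (big_inl hs hi hb u))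
  · by_cases hab : a < b ∧ x a b
    · left
      have e : lamT r x (Sum.inr (a, b, i)) = min ((i : ℕ) + 1) (2 * r + 1 - i) := if_pos hab
      rw [e]
      exact ly_of (pth_edge hs hi hb hab.1 hab.2) i
    · right
      rintro (v | ⟨a', b', j⟩) h'
      · exact hab ⟨h'.1, h'.2.1⟩
      · exact hab ⟨h'.1, h'.2.1⟩

theorem lamT_uq {u : Tk (2 * r)} {a : ℕ} (h : Ly r (sub (2 * r) x) u a) : a = lamT r x u := by
  rcases lamT_ly hs hi hb u with h1 | h1
  · exact ly_uq (sub_subd hs hi hb) h h1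
  · obtain ⟨v, hv⟩ := ly_noniso h
    exact absurd hv (h1 v)

theorem w1_T (hf : ∀ a b, f a b → f b a) : W1 r f (sub (2 * r) x) (flT r f x) := by
  have hsd : Subd (2 * r) (sub (2 * r) x) := sub_subd hs hi hb
  have tt : ∀ z, (∀ v, ¬ sub (2 * r) x z v) → TT r f (sub (2 * r) x) (flT r f x) z
      (lamT r x z) := by
    intro z hz b v hv
    have h1 := lamT_uq hs hi hb hv
    have hne : z ≠ v := fun e => by
      obtain ⟨w, hw⟩ := ly_noniso hv
      exact hz w (e ▸ hw)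
    unfold flT
    rw [← h1]
    exact ⟨fun h => h.2, fun h => ⟨hne, h⟩⟩
  have la : ∀ z, La r f (sub (2 * r) x) (flT r f x) z (lamT r x z) := fun z => by
    rcases lamT_ly hs hi hb z with h1 | h1
    · exact Or.inl h1
    · exact Or.inr ⟨h1, tt z h1⟩
  have hff : ∀ a b, f a b ↔ f b a := fun a b => ⟨hf a b, hf b a⟩
  have la' : ∀ z (a b : Fin (r + 2)), La r f (sub (2 * r) x) (flT r f x) z a →
      (f a b ↔ f (lamT r x z) b) := by
    intro z a b h
    rcases h with h | ⟨h1, h2⟩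
    · rw [lamT_uq hs hi hb h]
    · obtain ⟨y, hy⟩ := ly_all hsd (big_inl hs hi hb 0) b (by have := b.2; omega)
      rw [← h2 b y hy, ← tt z h1 b y hy]
  refine ⟨hsd, fun m => ⟨fun i => Sum.inl i, fun i j hij => ?_, fun i => big_inl hs hi hb i⟩,
    fun u => ⟨⟨lamT r x u, lamT_le u⟩, la u⟩, fun a b u v hu hv => ?_, fun a m => ?_⟩
  · exact Fin.ext (Sum.inl.inj hij)
  · unfold flT
    refine and_congr Iff.rfl ?_
    exact ((la' u a b hu).trans ((hff _ _).trans
      ((la' v b ⟨lamT r x u, lamT_le u⟩ hv).trans (hff _ _)))).symm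
  · refine ⟨fun i => Sum.inr (a + i * (r + 2), a + i * (r + 2), 0), fun i j hij => ?_,
      fun i => ?_⟩
    · simp only [Sum.inr.injEq, Prod.mk.injEq] at hij
      have h1 : (i : ℕ) * (r + 2) = j * (r + 2) := by omega
      exact Fin.ext (Nat.eq_of_mul_eq_mul_right (by omega) h1)
    · have h1 : ∀ v, ¬ sub (2 * r) x
          (Sum.inr ((a : ℕ) + i * (r + 2), (a : ℕ) + i * (r + 2), 0)) v := by
        rintro (v | ⟨a', b', j⟩)
        · exact fun h => absurd h.1 (lt_irrefl _)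
        · exact fun h => absurd h.1 (lt_irrefl _)
      refine ⟨h1, ?_⟩
      have h2 := tt _ h1
      have h3 : lamT r x (Sum.inr ((a : ℕ) + i * (r + 2), (a : ℕ) + i * (r + 2), 0)) = a := by
        have : ¬ ((a : ℕ) + i * (r + 2) < (a : ℕ) + i * (r + 2) ∧
            x ((a : ℕ) + i * (r + 2)) ((a : ℕ) + i * (r + 2))) := fun h => absurd h.1 (lt_irrefl _)
        rw [lamT_neg _ this, Nat.add_mul_mod_self_right, Nat.mod_eq_of_lt a.2]
      rw [h3] at h2
      exact h2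

end ex

end Pool.Agent.TH783.FC
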